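import Mathlib

/-! An asymptotic inequality: the choice of the number and of the size of the blocks. -/

set_option autoImplicit false

open Filter

namespace Pool.Agent.Helper45.AC

theorem ev_log (A B t : ℝ) (ht : 0 < t) :
    ∀ᶠ n : ℕ in atTop, A + B * Real.log n ≤ (n : ℝ) ^ t := by
  have h1 : ∀ᶠ x : ℝ in atTop, A + B * Real.log x ≤ x ^ t := by
    have h2 := (isLittleO_log_rpow_atTop ht).def (show (0 : ℝ) < 1 / (2 * (|B| + 1)) by positivity)
    have h3 := (tendsto_rpow_atTop ht).eventually_ge_atTop (2 * |A|)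
    filter_upwards [h2, h3, eventually_gt_atTop (0 : ℝ)] with x hx hx' hx0
    have h4 : 0 < x ^ t := Real.rpow_pos_of_pos hx0 t
    rw [Real.norm_eq_abs, Real.norm_of_nonneg h4.le] at hx
    have h5 : B * Real.log x ≤ x ^ t / 2 := by
      calc B * Real.log x ≤ |B * Real.log x| := le_abs_self _
        _ = |B| * |Real.log x| := abs_mul _ _
        _ ≤ (|B| + 1) * (1 / (2 * (|B| + 1)) * x ^ t) := by
            refine mul_le_mul (by linarith) hx (abs_nonneg _) (by positivity)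
        _ = x ^ t / 2 := by
            have : |B| + 1 ≠ 0 := by positivity
            field_simp
    have h6 : A ≤ x ^ t / 2 := by
      have := le_abs_self A
      linarith
    linarith
  exact tendsto_natCast_atTop_atTop.eventually h1

/-- **The number and the size of the blocks.** -/
theorem exists_ks (K : ℕ) (ε η c : ℝ) (hη : η < 2 * ε) (hc : 0 < c) :
    ∀ᶠ n : ℕ in atTop, ∀ I : ℕ, c * (n : ℝ) ^ (1 - η) ≤ I → ∃ k s : ℕ, k * s ≤ I ∧
      (4 * (n : ℝ) ^ K) ^ (2 ^ (k + 1)) ≤ 2 ^ s ∧ (n : ℝ) ^ (1 - 2 * ε) ≤ 2 ^ k := by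
  rcases le_or_gt (1 - 2 * ε) 0 with ha | ha
  · filter_upwards [eventually_ge_atTop 1] with n hn I _
    obtain ⟨s, hs⟩ := pow_unbounded_of_one_lt ((4 * (n : ℝ) ^ K) ^ (2 ^ (0 + 1))) one_lt_two
    refine ⟨0, s, by simp, hs.le, ?_⟩
    rw [pow_zero]
    exact Real.rpow_le_one_of_one_le_of_nonpos (by exact_mod_cast hn) ha
  · set a : ℝ := 1 - 2 * ε with ha'
    set t : ℝ := (1 - η - a) / 4 with ht'
    have ht : 0 < t := by
      rw [ht', ha']
      linarith
    have h2 : 0 < Real.log 2 := Real.log_pos one_lt_two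
    have e1 := ev_log (4 * Real.log 4 / Real.log 2) (4 * K / Real.log 2) t ht
    have e2 := ev_log 1 (a / Real.log 2) t ht
    have e3 : ∀ᶠ n : ℕ in atTop, 2 / c ≤ (n : ℝ) ^ (2 * t) :=
      tendsto_natCast_atTop_atTop.eventually
        ((tendsto_rpow_atTop (show 0 < 2 * t by positivity)).eventually_ge_atTop (2 / c))
    filter_upwards [e1, e2, e3, eventually_ge_atTop 2] with n E1 E2 E3 hn I hI
    have hn1 : (1 : ℝ) < n := by
      have : (2 : ℝ) ≤ n := by exact_mod_cast hn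
      linarith
    have hn0 : (0 : ℝ) < n := by linarith
    have hL : 0 < Real.log n := Real.log_pos hn1
    set k : ℕ := ⌈a * Real.log n / Real.log 2⌉₊ with hk
    have hk1 : a * Real.log n / Real.log 2 ≤ k := Nat.le_ceil _
    have hk2 : (k : ℝ) < a * Real.log n / Real.log 2 + 1 :=
      Nat.ceil_lt_add_one (by positivity)
    have hk0 : 0 < k := Nat.ceil_pos.2 (by positivity)
    have hk0' : (0 : ℝ) < k := by exact_mod_cast hk0
    have hkt : (k : ℝ) ≤ (n : ℝ) ^ t := by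
      have : a * Real.log n / Real.log 2 = a / Real.log 2 * Real.log n := by ring
      linarith
    have hpowk : (2 : ℝ) ^ k = Real.exp (k * Real.log 2) := by
      rw [mul_comm, Real.exp_mul, Real.exp_log two_pos, Real.rpow_natCast]
    have hna : ∀ y : ℝ, (n : ℝ) ^ y = Real.exp (y * Real.log n) := by
      intro y
      rw [Real.rpow_def_of_pos hn0, mul_comm]
    have hlow : (n : ℝ) ^ a ≤ 2 ^ k := by
      rw [hpowk, hna, Real.exp_le_exp]
      have := (div_le_iff₀ h2).1 hk1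
      linarith
    have hup : (2 : ℝ) ^ (k + 1) ≤ 4 * (n : ℝ) ^ a := by
      have h3 : (2 : ℝ) ^ k ≤ 2 * (n : ℝ) ^ a := by
        have h4 : (k : ℝ) * Real.log 2 ≤ a * Real.log n + Real.log 2 := by
          have h5 : (k : ℝ) * Real.log 2 < (a * Real.log n / Real.log 2 + 1) * Real.log 2 :=
            mul_lt_mul_of_pos_right hk2 h2
          rw [add_mul, div_mul_cancel₀ _ h2.ne', one_mul] at h5
          exact h5.le
        rw [hpowk, hna]
        calc Real.exp (k * Real.log 2) ≤ Real.exp (a * Real.log n + Real.log 2) :=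
              Real.exp_le_exp.2 h4
          _ = 2 * Real.exp (a * Real.log n) := by
              rw [Real.exp_add, Real.exp_log two_pos, mul_comm]
      rw [pow_succ]
      linarith
    have hnat : 0 < (n : ℝ) ^ a := Real.rpow_pos_of_pos hn0 a
    have h1at : 1 ≤ (n : ℝ) ^ (a + t) := Real.one_le_rpow hn1.le (by positivity)
    have hs : (n : ℝ) ^ (a + t) ≤ (I / k : ℕ) := by
      have h3 : (I : ℝ) < k * ((I / k : ℕ) + 1) := by
        have h4 : I < k * (I / k + 1) := Nat.lt_mul_div_succ I hk0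
        exact_mod_cast h4
      have h5 : (n : ℝ) ^ (1 - η) = (n : ℝ) ^ (a + t) * (n : ℝ) ^ t * (n : ℝ) ^ (2 * t) := by
        rw [← Real.rpow_add hn0, ← Real.rpow_add hn0]
        congr 1
        rw [ht']
        ring
      have h6 : 2 * (n : ℝ) ^ (a + t) * k ≤ I := by
        calc 2 * (n : ℝ) ^ (a + t) * k ≤ 2 * (n : ℝ) ^ (a + t) * (n : ℝ) ^ t :=
              mul_le_mul_of_nonneg_left hkt (by positivity)
          _ = c * ((n : ℝ) ^ (a + t) * (n : ℝ) ^ t * (2 / c)) := by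
              field_simp
          _ ≤ c * ((n : ℝ) ^ (a + t) * (n : ℝ) ^ t * (n : ℝ) ^ (2 * t)) := by
              refine mul_le_mul_of_nonneg_left ?_ hc.le
              exact mul_le_mul_of_nonneg_left E3 (by positivity)
          _ = c * (n : ℝ) ^ (1 - η) := by rw [h5]
          _ ≤ I := hI
      have h7 : 2 * (n : ℝ) ^ (a + t) * k < (((I / k : ℕ) : ℝ) + 1) * k := by
        calc _ ≤ (I : ℝ) := h6
          _ < _ := by rw [mul_comm (((I / k : ℕ) : ℝ) + 1)]; exact h3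
      have h8 := lt_of_mul_lt_mul_right h7 hk0'.le
      linarith
    refine ⟨k, I / k, Nat.mul_div_le I k, ?_, hlow⟩
    have hpos : (0 : ℝ) < 4 * (n : ℝ) ^ K := by positivity
    rw [← Real.log_le_log_iff (by positivity) (by positivity), Real.log_pow, Real.log_pow,
      Real.log_mul (by norm_num) (by positivity), Real.log_pow]
    have h9 : (4 : ℝ) * (Real.log 4 + K * Real.log n) ≤ (n : ℝ) ^ t * Real.log 2 := by
      have h10 := mul_le_mul_of_nonneg_right E1 h2.le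
      calc (4 : ℝ) * (Real.log 4 + K * Real.log n) =
          (4 * Real.log 4 / Real.log 2 + 4 * K / Real.log 2 * Real.log n) * Real.log 2 := by
            field_simp
        _ ≤ _ := h10
    have hlog4 : 0 ≤ Real.log 4 := Real.log_nonneg (by norm_num)
    push_cast
    calc (2 : ℝ) ^ (k + 1) * (Real.log 4 + K * Real.log n) ≤
        4 * (n : ℝ) ^ a * (Real.log 4 + K * Real.log n) :=
          mul_le_mul_of_nonneg_right hup (by positivity)
      _ = (n : ℝ) ^ a * (4 * (Real.log 4 + K * Real.log n)) := by ring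
      _ ≤ (n : ℝ) ^ a * ((n : ℝ) ^ t * Real.log 2) := mul_le_mul_of_nonneg_left h9 hnat.le
      _ = (n : ℝ) ^ (a + t) * Real.log 2 := by rw [Real.rpow_add hn0]; ring
      _ ≤ ((I / k : ℕ) : ℝ) * Real.log 2 := mul_le_mul_of_nonneg_right hs h2.le

/-- the parameter `e` of the restrictions -/
theorem exists_e (m d e₀ : ℕ) (hm : 1 ≤ m) : ∀ᶠ n : ℕ in atTop, ∃ e ≥ e₀, n ≤ 2 ^ (e * m) ∧
    2 ^ ((e - 1) * m) ≤ 2 * n ∧ (4 : ℝ) ^ (e * d) ≤ 4 ^ d * (n : ℝ) ^ ((2 * d : ℝ) / m) := by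
  filter_upwards [eventually_gt_atTop (2 ^ (e₀ * m))] with n hn
  have hn0 : 0 < n := lt_of_le_of_lt (Nat.zero_le _) hn
  have hex : ∃ e : ℕ, n ≤ 2 ^ (e * m) := by
    refine ⟨n, ?_⟩
    calc n ≤ 2 ^ n := Nat.lt_two_pow_self.le
      _ ≤ 2 ^ (n * m) := Nat.pow_le_pow_right (by norm_num) (Nat.le_mul_of_pos_right _ hm)
  classical
  set e := Nat.find hex with he
  have h1 : n ≤ 2 ^ (e * m) := Nat.find_spec hex
  have h2 : e₀ < e := by
    by_contra hcon
    have : 2 ^ (e * m) ≤ 2 ^ (e₀ * m) :=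
      Nat.pow_le_pow_right (by norm_num) (Nat.mul_le_mul_right _ (not_lt.1 hcon))
    omega
  have h3 : 2 ^ ((e - 1) * m) < n := by
    have := Nat.find_min hex (show e - 1 < e by omega)
    omega
  refine ⟨e, h2.le, h1, by omega, ?_⟩
  have hm0 : (0 : ℝ) < m := by exact_mod_cast hm
  have h4 : (2 : ℝ) ^ ((e - 1) * m) ≤ n := by exact_mod_cast h3.le
  have h5 : ((2 : ℝ) ^ ((e - 1) * m)) ^ ((2 * d : ℝ) / m) = 4 ^ ((e - 1) * d) := by
    rw [← Real.rpow_natCast, ← Real.rpow_mul (by norm_num)]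
    have h6 : (((e - 1) * m : ℕ) : ℝ) * ((2 * d : ℝ) / m) = ((2 * ((e - 1) * d) : ℕ) : ℝ) := by
      push_cast
      field_simp
    rw [h6, Real.rpow_natCast, pow_mul]
    norm_num
  have h7 := Real.rpow_le_rpow (by positivity) h4 (show 0 ≤ (2 * d : ℝ) / m by positivity)
  rw [h5] at h7
  calc (4 : ℝ) ^ (e * d) = 4 ^ d * 4 ^ ((e - 1) * d) := by
        rw [← pow_add]
        congr 1
        obtain ⟨e', he'⟩ : ∃ e', e = e' + 1 := ⟨e - 1, by omega⟩
        rw [he', Nat.add_sub_cancel]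
        ring
    _ ≤ _ := mul_le_mul_of_nonneg_left h7 (by positivity)

/-- the loss of density is small -/
theorem loss_le (m K d e n : ℕ) (hn : 1 ≤ n) (he : 2 * d ≤ 2 ^ e) (h : n ≤ 2 ^ (e * m)) :
    (d : ℝ) / 2 ^ (e * (m * K + 1)) ≤ 1 / (2 * (n : ℝ) ^ K) := by
  have hn0 : (0 : ℝ) < n := by exact_mod_cast hn
  have h1 : (n : ℝ) ≤ 2 ^ (e * m) := by exact_mod_cast h
  have h2 : (2 * d : ℝ) ≤ 2 ^ e := by exact_mod_cast he
  have h3 : (n : ℝ) ^ K ≤ 2 ^ (e * m * K) := by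
    rw [pow_mul]
    exact pow_le_pow_left₀ hn0.le h1 K
  rw [div_le_div_iff₀ (by positivity) (by positivity), one_mul]
  calc (d : ℝ) * (2 * (n : ℝ) ^ K) = 2 * d * (n : ℝ) ^ K := by ring
    _ ≤ 2 ^ e * 2 ^ (e * m * K) := mul_le_mul h2 h3 (by positivity) (by positivity)
    _ = 2 ^ (e * (m * K + 1)) := by
        rw [← pow_add]
        congr 1
        ring

/-- the number of independent variables -/
theorem exists_I (d m b : ℕ) (hm : 2 * d < m) : ∃ c : ℝ, 0 < c ∧ ∀ᶠ n : ℕ in atTop,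
    ∀ e V I : ℕ, (4 : ℝ) ^ (e * d) ≤ 4 ^ d * (n : ℝ) ^ ((2 * d : ℝ) / m) →
      (n : ℝ) / 4 ^ (e * d) - 1 ≤ V → V ^ 2 ≤ 6 * n * b ^ 2 * I →
      c * (n : ℝ) ^ (1 - (4 * d : ℝ) / m) ≤ I := by
  have hm0 : (0 : ℝ) < m := by
    have : 0 < m := by omega
    exact_mod_cast this
  have hr : 0 < 1 - (2 * d : ℝ) / m := by
    rw [sub_pos, div_lt_one hm0]
    exact_mod_cast hm
  refine ⟨1 / (24 * 16 ^ d * (b + 1) ^ 2), by positivity, ?_⟩
  have e1 : ∀ᶠ n : ℕ in atTop, 2 * (4 : ℝ) ^ d ≤ (n : ℝ) ^ (1 - (2 * d : ℝ) / m) :=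
    tendsto_natCast_atTop_atTop.eventually
      ((tendsto_rpow_atTop hr).eventually_ge_atTop (2 * (4 : ℝ) ^ d))
  filter_upwards [e1, eventually_ge_atTop 1] with n E1 hn e V I h1 h2 h3
  have hn0 : (0 : ℝ) < n := by exact_mod_cast hn
  set y : ℝ := (n : ℝ) ^ (1 - (2 * d : ℝ) / m) with hy
  have hy0 : 0 < y := Real.rpow_pos_of_pos hn0 _
  have h4 : y / 4 ^ d ≤ (n : ℝ) / 4 ^ (e * d) := by
    rw [div_le_div_iff₀ (by positivity) (by positivity)]
    calc y * 4 ^ (e * d) ≤ y * (4 ^ d * (n : ℝ) ^ ((2 * d : ℝ) / m)) :=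
          mul_le_mul_of_nonneg_left h1 hy0.le
      _ = (y * (n : ℝ) ^ ((2 * d : ℝ) / m)) * 4 ^ d := by ring
      _ = n * 4 ^ d := by
          rw [hy, ← Real.rpow_add hn0]
          simp
  have h5 : y / (2 * 4 ^ d) ≤ V := by
    have h6 : 1 ≤ y / (2 * 4 ^ d) := by
      rw [le_div_iff₀ (by positivity), one_mul]
      exact E1
    have h7 : y / 4 ^ d = y / (2 * 4 ^ d) + y / (2 * 4 ^ d) := by
      field_simp
      ring
    linarith
  have h8 : (y / (2 * 4 ^ d)) ^ 2 ≤ (V : ℝ) ^ 2 := pow_le_pow_left₀ (by positivity) h5 2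
  have h9 : ((V : ℝ)) ^ 2 ≤ 6 * n * (b + 1) ^ 2 * I := by
    have h10 : (V : ℝ) ^ 2 ≤ 6 * n * b ^ 2 * I := by exact_mod_cast h3
    refine h10.trans ?_
    have hb : (b : ℝ) ^ 2 ≤ (b + 1) ^ 2 := pow_le_pow_left₀ (by positivity) (by linarith) 2
    have hI : (0 : ℝ) ≤ I := Nat.cast_nonneg _
    exact mul_le_mul_of_nonneg_right (mul_le_mul_of_nonneg_left hb (by positivity)) hI
  have h11 : y ^ 2 = n * (n : ℝ) ^ (1 - (4 * d : ℝ) / m) := by
    rw [hy, ← Real.rpow_natCast, ← Real.rpow_mul hn0.le]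
    nth_rewrite 2 [← Real.rpow_one (n : ℝ)]
    rw [← Real.rpow_add hn0]
    congr 1
    push_cast
    ring
  have h12 : (y / (2 * 4 ^ d)) ^ 2 = n * (n : ℝ) ^ (1 - (4 * d : ℝ) / m) / (4 * 16 ^ d) := by
    rw [div_pow, h11, mul_pow, ← pow_mul, mul_comm d 2, pow_mul]
    norm_num
  have h13 := h8.trans h9
  rw [h12, div_le_iff₀ (by positivity)] at h13
  have h14 : (n : ℝ) * (n : ℝ) ^ (1 - (4 * d : ℝ) / m) ≤
      n * (24 * 16 ^ d * (b + 1) ^ 2 * I) := by
    refine h13.trans (le_of_eq ?_)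
    ring
  have h15 := le_of_mul_le_mul_left h14 hn0
  rw [div_mul_eq_mul_div, one_mul, div_le_iff₀ (by positivity)]
  linarith

/-- end of the first clause -/
theorem le_rep {n k r : ℕ} {ε : ℝ} (h : (n : ℝ) ^ (1 - 2 * ε) ≤ 2 ^ k) (hr : 2 ^ k ≤ r ^ 2) :
    (n : ℝ) ^ (1 / 2 - ε) ≤ r := by
  have hn0 : (0 : ℝ) ≤ n := Nat.cast_nonneg n
  have h1 : ((n : ℝ) ^ (1 / 2 - ε)) ^ 2 = (n : ℝ) ^ (1 - 2 * ε) := by
    rw [← Real.rpow_natCast, ← Real.rpow_mul hn0]
    congr 1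
    push_cast
    ring
  have h2 : ((2 : ℝ) ^ k) ≤ (r : ℝ) ^ 2 := by exact_mod_cast hr
  have h3 : ((n : ℝ) ^ (1 / 2 - ε)) ^ 2 ≤ (r : ℝ) ^ 2 := by
    rw [h1]
    exact h.trans h2
  exact le_of_sq_le_sq h3 (Nat.cast_nonneg r)

/-- end of the second clause -/
theorem exp_le_rep (ε η c : ℝ) (hη : η < ε) (hc : 0 < c) :
    ∀ᶠ n : ℕ in atTop, ∀ I r : ℕ, c * (n : ℝ) ^ (1 - η) ≤ I → 2 ^ I ≤ r ^ 2 →
      Real.exp ((n : ℝ) ^ (1 - ε)) ≤ r := by
  have h2 : 0 < Real.log 2 := Real.log_pos one_lt_two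
  have e1 : ∀ᶠ n : ℕ in atTop, 2 / (c * Real.log 2) ≤ (n : ℝ) ^ (ε - η) :=
    tendsto_natCast_atTop_atTop.eventually
      ((tendsto_rpow_atTop (show 0 < ε - η by linarith)).eventually_ge_atTop _)
  filter_upwards [e1, eventually_ge_atTop 1] with n E1 hn I r hI hr
  have hn0 : (0 : ℝ) < n := by exact_mod_cast hn
  have h3 : 2 * (n : ℝ) ^ (1 - ε) ≤ I * Real.log 2 := by
    have h4 : (n : ℝ) ^ (1 - η) = (n : ℝ) ^ (1 - ε) * (n : ℝ) ^ (ε - η) := by
      rw [← Real.rpow_add hn0]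
      congr 1
      ring
    have h5 : 0 < (n : ℝ) ^ (1 - ε) := Real.rpow_pos_of_pos hn0 _
    calc 2 * (n : ℝ) ^ (1 - ε) = c * ((n : ℝ) ^ (1 - ε) * (2 / (c * Real.log 2))) *
          Real.log 2 := by field_simp
      _ ≤ c * ((n : ℝ) ^ (1 - ε) * (n : ℝ) ^ (ε - η)) * Real.log 2 := by
          refine mul_le_mul_of_nonneg_right (mul_le_mul_of_nonneg_left ?_ hc.le) h2.le
          exact mul_le_mul_of_nonneg_left E1 h5.le
      _ = c * (n : ℝ) ^ (1 - η) * Real.log 2 := by rw [h4]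
      _ ≤ I * Real.log 2 := mul_le_mul_of_nonneg_right hI h2.le
  have h6 : ((2 : ℝ) ^ I) ≤ (r : ℝ) ^ 2 := by exact_mod_cast hr
  have h7 : (2 : ℝ) ^ I = Real.exp (I * Real.log 2) := by
    rw [mul_comm, Real.exp_mul, Real.exp_log two_pos, Real.rpow_natCast]
  have h8 : (Real.exp ((n : ℝ) ^ (1 - ε))) ^ 2 ≤ (r : ℝ) ^ 2 := by
    refine le_trans ?_ h6
    rw [h7, ← Real.exp_nat_mul]
    exact Real.exp_le_exp.2 (by push_cast; exact h3)
  exact le_of_sq_le_sq h8 (Nat.cast_nonneg r)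

/-- **The final inequality**: density `1 / (2 n ^ K)` and `c n ^ (1 - η)` independent variables give
more than `exp (n ^ (1 - ε))` representations. -/
theorem exp_sq_le (K : ℕ) (ε η c : ℝ) (hη : η < ε) (hη1 : η < 1) (hc : 0 < c) :
    ∀ᶠ n : ℕ in atTop, ∀ I : ℕ, c * (n : ℝ) ^ (1 - η) ≤ I →
      Real.exp ((n : ℝ) ^ (1 - ε)) ^ 2 ≤ (1 / (2 * (n : ℝ) ^ K)) ^ 2 * (4 / 3) ^ I := by
  have h43 : 0 < Real.log (4 / 3) := Real.log_pos (by norm_num)
  set c' : ℝ := c * Real.log (4 / 3) with hc'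
  have hc0 : 0 < c' := by positivity
  have e1 : ∀ᶠ n : ℕ in atTop, 4 / c' ≤ (n : ℝ) ^ (ε - η) :=
    tendsto_natCast_atTop_atTop.eventually
      ((tendsto_rpow_atTop (show 0 < ε - η by linarith)).eventually_ge_atTop _)
  have e2 := ev_log (4 * Real.log 2 / c') (4 * K / c') (1 - η) (by linarith)
  filter_upwards [e1, e2, eventually_ge_atTop 1] with n E1 E2 hn I hI
  have hn0 : (0 : ℝ) < n := by exact_mod_cast hn
  have h5 : 0 < (n : ℝ) ^ (1 - ε) := Real.rpow_pos_of_pos hn0 _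
  have h4 : (n : ℝ) ^ (1 - η) = (n : ℝ) ^ (1 - ε) * (n : ℝ) ^ (ε - η) := by
    rw [← Real.rpow_add hn0]
    congr 1
    ring
  have h6 : 2 * (n : ℝ) ^ (1 - ε) ≤ c' / 2 * (n : ℝ) ^ (1 - η) := by
    calc 2 * (n : ℝ) ^ (1 - ε) = c' / 2 * ((n : ℝ) ^ (1 - ε) * (4 / c')) := by
          field_simp
          ring
      _ ≤ c' / 2 * ((n : ℝ) ^ (1 - ε) * (n : ℝ) ^ (ε - η)) := by
          refine mul_le_mul_of_nonneg_left ?_ (by positivity)
          exact mul_le_mul_of_nonneg_left E1 h5.le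
      _ = _ := by rw [h4]
  have h7 : 2 * Real.log 2 + 2 * K * Real.log n ≤ c' / 2 * (n : ℝ) ^ (1 - η) := by
    calc 2 * Real.log 2 + 2 * K * Real.log n =
        c' / 2 * (4 * Real.log 2 / c' + 4 * K / c' * Real.log n) := by
          field_simp
          ring
      _ ≤ _ := mul_le_mul_of_nonneg_left E2 (by positivity)
  have h8 : c' * (n : ℝ) ^ (1 - η) ≤ I * Real.log (4 / 3) := by
    calc c' * (n : ℝ) ^ (1 - η) = c * (n : ℝ) ^ (1 - η) * Real.log (4 / 3) := by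
          rw [hc']
          ring
      _ ≤ _ := mul_le_mul_of_nonneg_right hI h43.le
  have hpos : (0 : ℝ) < (1 / (2 * (n : ℝ) ^ K)) ^ 2 * (4 / 3) ^ I := by positivity
  rw [← Real.log_le_log_iff (by positivity) hpos, Real.log_pow, Real.log_exp,
    Real.log_mul (by positivity) (by positivity), Real.log_pow, Real.log_pow, one_div,
    Real.log_inv, Real.log_mul (by norm_num) (by positivity), Real.log_pow]
  push_cast
  nlinarith [h6, h7, h8]

end Pool.Agent.Helper45.AC
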