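import Pool.Agent.Helper45.AC.Restrict

/-! Choices of representations computed with few AND gates and any number of XOR gates. -/

set_option autoImplicit false

open Finset Module

namespace Pool.Agent.Helper45.AC

open Pool.Agent.Helper72.AC (rep num)

/-- `k` AND gates (any number of XOR gates) do not choose representations -/
def XorStmt : Prop := ∀ (n : ℕ) (A : Set ℕ) (f : ℕ → ℕ) (L : List ((Fin n → Bool) → Bool)) (δ : ℝ),
  XCirc L → (∀ i < n, Lin L fun x => (f (num x)).testBit i) →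
  (1 + δ) / 2 * 2 ^ n ≤ Set.ncard {N | N < 2 ^ n ∧ f N ≤ N ∧ f N ∈ A ∧ N - f N ∈ A} →
  ∃ m < 2 ^ (n + 1), δ * (2 : ℝ) ^ (((n : ℝ) - 11 * L.length) / 8) ≤ (rep A m : ℝ) ^ 2

theorem xorStmt (hS : SpaceStmt) : XorStmt := by
  intro n A f L δ hL hf hδ
  set T : Set (Fin n → ZMod 2) := {x | Right A f (numZ x)} with hT
  have hsub : {N | N < 2 ^ n ∧ f N ≤ N ∧ f N ∈ A ∧ N - f N ∈ A} ⊆
      (fun x : Fin n → ZMod 2 => numZ x) '' T := by
    rintro N ⟨h1, h2⟩
    have h3 : numZ (fun i : Fin n => bz (N.testBit i)) = N := by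
      unfold numZ num
      simp only [tb_bz]
      rw [Nat.ofBits_testBit, Nat.mod_eq_of_lt h1]
    refine ⟨fun i => bz (N.testBit i), ?_, h3⟩
    show Right A f (numZ fun i : Fin n => bz (N.testBit i))
    rw [h3]
    exact h2
  have h1 : (Set.ncard {N | N < 2 ^ n ∧ f N ≤ N ∧ f N ∈ A ∧ N - f N ∈ A}) ≤ T.ncard :=
    (Set.ncard_le_ncard hsub (Set.toFinite _)).trans (Set.ncard_image_le (Set.toFinite _))
  have h2 : (1 + δ) / 2 * 2 ^ n ≤ (T.ncard : ℝ) := hδ.trans (by exact_mod_cast h1)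
  obtain ⟨V, _, _, _, ι, x0, hinj, hdim, hcnt, haff⟩ := restrict T hL
  choose φ c hφ using fun i : Fin n => haff _ (hf i i.2)
  set e := LinearEquiv.ofInjective ι hinj with he
  have hrank : finrank (ZMod 2) (LinearMap.range ι) = finrank (ZMod 2) V := e.finrank_eq.symm
  have hcard : {v : V | x0 + ι v ∈ T}.ncard ≤
      Set.ncard {v : LinearMap.range ι | Right A f (numZ (x0 + (v : Fin n → ZMod 2)))} := by
    have : Finite (LinearMap.range ι) := inferInstance
    refine Set.ncard_le_ncard_of_injOn (fun v => e v) ?_ (e.injective.injOn) (Set.toFinite _)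
    intro v hv
    exact hv
  have hd : (1 + δ) / 2 * 2 ^ finrank (ZMod 2) (LinearMap.range ι) ≤
      (Set.ncard {v : LinearMap.range ι | Right A f (numZ (x0 + (v : Fin n → ZMod 2)))} : ℝ) := by
    rw [hrank]
    have h3 : (T.ncard : ℝ) * 2 ^ finrank (ZMod 2) V ≤
        ({v : V | x0 + ι v ∈ T}.ncard : ℝ) * 2 ^ n := by exact_mod_cast hcnt
    have h4 : (1 + δ) / 2 * 2 ^ finrank (ZMod 2) V * 2 ^ n ≤
        ({v : V | x0 + ι v ∈ T}.ncard : ℝ) * 2 ^ n := by
      refine le_trans ?_ h3
      have := mul_le_mul_of_nonneg_right h2 (show (0 : ℝ) ≤ 2 ^ finrank (ZMod 2) V by positivity)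
      linarith
    have h5 := le_of_mul_le_mul_right h4 (by positivity)
    exact h5.trans (by exact_mod_cast hcard)
  obtain ⟨m, hm, w, hw, hr⟩ := hS n A f (LinearMap.range ι) x0 (fun i => (φ i).comp e.symm.toLinearMap)
    c δ (fun v i => by
      have h6 := hφ i (e.symm v)
      have h7 : ι (e.symm v) = (v : Fin n → ZMod 2) := by
        have h8 := e.apply_symm_apply v
        have h9 : ((e (e.symm v) : LinearMap.range ι) : Fin n → ZMod 2) = ι (e.symm v) := rfl
        rw [h8] at h9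
        exact h9.symm
      rw [h7] at h6
      exact h6) hd
  refine ⟨m, hm, ?_⟩
  rcases le_or_gt δ 0 with hδ0 | hδ0
  · exact (mul_nonpos_of_nonpos_of_nonneg hδ0 (by positivity)).trans (by positivity)
  · refine le_trans (mul_le_mul_of_nonneg_left ?_ hδ0.le) hr
    rw [hrank] at hw
    rw [← Real.rpow_natCast]
    refine Real.rpow_le_rpow_of_exponent_le (by norm_num) ?_
    have h10 : n ≤ 8 * w + 11 * L.length := by omega
    have h11 : (n : ℝ) ≤ 8 * w + 11 * L.length := by exact_mod_cast h10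
    linarith

end Pool.Agent.Helper45.AC
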