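import Pool.Agent.Helper72.AC.Circ

/-! With XOR gates the finite form of the theorem on parametrisations is false: `x ↦ (x, x^3)` over a
field of characteristic two. -/

set_option autoImplicit false

namespace Pool.Agent.Helper45.AC.Bar

open Finset
open Pool.Agent.Helper72.AC (rep)

/-- from a digit to `ZMod 2` -/
def B (b : Bool) : ZMod 2 := if b then 1 else 0

theorem B_xor (a b : Bool) : B (a ^^ b) = B a + B b := by
  cases a <;> cases b <;> decide

theorem B_and (a b : Bool) : B (a && b) = B a * B b := by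
  cases a <;> cases b <;> decide

theorem B_inj {a b : Bool} (h : B a = B b) : a = b := by
  revert h
  cases a <;> cases b <;> decide

theorem B_odd (c : ℕ) : B (decide (Odd c)) = (c : ZMod 2) := by
  rcases Nat.even_or_odd c with h | h
  · have h1 : ¬ Odd c := by rwa [Nat.not_odd_iff_even]
    have h2 : ((c : ℕ) : ZMod 2) = 0 := (ZMod.natCast_eq_zero_iff_even).2 h
    simp [B, h1, h2]
  · have h2 : ((c : ℕ) : ZMod 2) = 1 := (ZMod.natCast_eq_one_iff_odd).2 h
    simp [B, h, h2]

/-- the digits at the odd positions vanish -/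
def Ev (a : ℕ) : Prop := ∀ k, a.testBit (2 * k + 1) = false

theorem ev_mod {a : ℕ} (h : Ev a) : a % 4 ≤ 1 := by
  have h1 := h 0
  rw [Nat.testBit_eq_decide_div_mod_eq] at h1
  have h2 : ¬ (a / 2 ^ (2 * 0 + 1) % 2 = 1) := of_decide_eq_false h1
  norm_num at h2
  omega

theorem ev_div {a : ℕ} (h : Ev a) : Ev (a / 4) := by
  intro k
  have h1 := h (k + 1)
  rw [show (4 : ℕ) = 2 ^ 2 by norm_num, Nat.testBit_div_two_pow]
  rw [show 2 * k + 1 + 2 = 2 * (k + 1) + 1 by ring]
  exact h1

theorem add_even (k : ℕ) : ∀ {a c : ℕ}, Ev a → Ev c →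
    (a + c).testBit (2 * k) = (a.testBit (2 * k) ^^ c.testBit (2 * k)) ∧
    (a + c).testBit (2 * k + 1) = (a.testBit (2 * k) && c.testBit (2 * k)) := by
  induction k with
  | zero =>
    intro a c ha hc
    have h1 := ev_mod ha
    have h2 := ev_mod hc
    simp only [Nat.testBit_eq_decide_div_mod_eq]
    norm_num
    have h3 : a % 4 = 0 ∨ a % 4 = 1 := by omega
    have h4 : c % 4 = 0 ∨ c % 4 = 1 := by omega
    rcases h3 with h3 | h3 <;> rcases h4 with h4 | h4
    · have e1 : a % 2 = 0 := by omega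
      have e2 : c % 2 = 0 := by omega
      have e3 : (a + c) % 2 = 0 := by omega
      have e4 : (a + c) / 2 % 2 = 0 := by omega
      simp [e1, e2, e3, e4]
    · have e1 : a % 2 = 0 := by omega
      have e2 : c % 2 = 1 := by omega
      have e3 : (a + c) % 2 = 1 := by omega
      have e4 : (a + c) / 2 % 2 = 0 := by omega
      simp [e1, e2, e3, e4]
    · have e1 : a % 2 = 1 := by omega
      have e2 : c % 2 = 0 := by omega
      have e3 : (a + c) % 2 = 1 := by omega
      have e4 : (a + c) / 2 % 2 = 0 := by omega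
      simp [e1, e2, e3, e4]
    · have e1 : a % 2 = 1 := by omega
      have e2 : c % 2 = 1 := by omega
      have e3 : (a + c) % 2 = 0 := by omega
      have e4 : (a + c) / 2 % 2 = 1 := by omega
      simp [e1, e2, e3, e4]
  | succ k ih =>
    intro a c ha hc
    have h1 := ev_mod ha
    have h2 := ev_mod hc
    have h3 : (a + c) / 4 = a / 4 + c / 4 := by omega
    have h4 : ∀ x j : ℕ, x.testBit (j + 2) = (x / 4).testBit j := by
      intro x j
      rw [show (4 : ℕ) = 2 ^ 2 by norm_num, Nat.testBit_div_two_pow]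
    have h5 := ih (ev_div ha) (ev_div hc)
    rw [show 2 * (k + 1) = 2 * k + 2 by ring, show 2 * k + 2 + 1 = 2 * k + 1 + 2 by ring, h4, h4, h4,
      h4, h3]
    exact h5

theorem field_two {F : Type*} [Field F] [CharP F 2] {v v' w w' : F} (h1 : v + v' = w + w')
    (h3 : v ^ 3 + v' ^ 3 = w ^ 3 + w' ^ 3) (h0 : v + v' ≠ 0) : w = v ∨ w = v' := by
  have h2 : (2 : F) = 0 := CharTwo.two_eq_zero
  have h4 : (v + v') * (3 * (v * v' - w * w')) = 0 := by
    linear_combination ((v + v') ^ 2 + (v + v') * (w + w') + (w + w') ^ 2 - 3 * (w * w')) * h1 - h3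
  have h5 : (3 : F) = 1 := by linear_combination h2
  rw [h5, one_mul] at h4
  have h6 : v * v' = w * w' := by
    rcases mul_eq_zero.1 h4 with h | h
    · exact absurd h h0
    · exact sub_eq_zero.1 h
  have h7 : (w - v) * (w - v') = 0 := by
    linear_combination h6 - w * h1
  rcases mul_eq_zero.1 h7 with h | h
  · exact Or.inl (sub_eq_zero.1 h)
  · exact Or.inr (sub_eq_zero.1 h)

section Field

variable {n : ℕ} {F : Type*} [Field F] [Algebra (ZMod 2) F] (b : Module.Basis (Fin n) (ZMod 2) F)

open Classical in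
/-- the quadratic form of the digit `j` -/
noncomputable def Q (j : ℕ) : Finset (Fin n × Fin n) :=
  if j % 2 = 1 then ∅ else
  if h : j / 2 < n then {(⟨j / 2, h⟩, ⟨j / 2, h⟩)} else
  if h' : j / 2 - n < n then
    univ.filter (fun p => b.repr (b p.1 * b p.2 ^ 2) ⟨j / 2 - n, h'⟩ = 1) else ∅

/-- the digit `j` of the value at `N` -/
noncomputable def digit (N j : ℕ) : Bool :=
  decide (Odd ((Q b j).filter (fun p => N.testBit p.1 = true ∧ N.testBit p.2 = true)).card)

/-- the parametrisation -/
noncomputable def G (N : ℕ) : ℕ := Nat.ofBits (fun j : Fin (4 * n) => digit b N j)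

/-- the element of the field -/
noncomputable def val (N : ℕ) : F := ∑ i : Fin n, B (N.testBit i) • b i

theorem testBit_G {N j : ℕ} (h : j < 4 * n) : (G b N).testBit j = digit b N j := by
  unfold G
  rw [Nat.testBit_ofBits_lt _ _ h]

theorem digit_odd (N k : ℕ) : digit b N (2 * k + 1) = false := by
  have h : Q b (2 * k + 1) = ∅ := by
    unfold Q
    rw [if_pos (by omega)]
  unfold digit
  rw [h]
  simp

theorem digit_low (N k : ℕ) (hk : k < n) : digit b N (2 * k) = N.testBit k := by
  have h0 : 2 * k / 2 = k := by omega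
  have h : Q b (2 * k) = {(⟨k, hk⟩, ⟨k, hk⟩)} := by
    unfold Q
    rw [if_neg (by omega), dif_pos (by omega)]
    simp only [h0]
  unfold digit
  rw [h, Finset.filter_singleton]
  by_cases hb : N.testBit k = true
  · simp [hb]
  · simp [hb]

theorem repr_val (N : ℕ) (i : Fin n) : b.repr (val b N) i = B (N.testBit i) := by
  unfold val
  rw [Module.Basis.repr_sum_self]

theorem B_sq (a : Bool) : B a ^ 2 = B a := by
  cases a <;> decide

theorem val_cube [CharP F 2] (N : ℕ) : val b N ^ 3 =
    ∑ p : Fin n × Fin n, (B (N.testBit p.1) * B (N.testBit p.2)) • (b p.1 * b p.2 ^ 2) := by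
  have h1 : val b N ^ 2 = ∑ i : Fin n, B (N.testBit i) • b i ^ 2 := by
    unfold val
    rw [CharTwo.sum_sq]
    refine Finset.sum_congr rfl fun i _ => ?_
    rw [smul_pow, B_sq]
  have h2 : val b N ^ 3 = val b N * val b N ^ 2 := by ring
  rw [h2, h1]
  unfold val
  rw [Finset.sum_mul_sum, ← Finset.univ_product_univ, Finset.sum_product]
  refine Finset.sum_congr rfl fun i _ => Finset.sum_congr rfl fun j _ => ?_
  rw [smul_mul_smul_comm]

theorem digit_high [CharP F 2] (N k : ℕ) (hk : k < n) :
    B (digit b N (2 * (n + k))) = b.repr (val b N ^ 3) ⟨k, hk⟩ := by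
  classical
  have h0 : 2 * (n + k) / 2 = n + k := by omega
  have h1 : n + k - n = k := by omega
  have h : Q b (2 * (n + k)) =
      univ.filter (fun p => b.repr (b p.1 * b p.2 ^ 2) ⟨k, hk⟩ = 1) := by
    unfold Q
    rw [if_neg (by omega), dif_neg (by omega), dif_pos (by omega)]
    simp only [h0, h1]
  unfold digit
  rw [B_odd, h, Finset.filter_filter, Finset.card_filter]
  rw [val_cube, map_sum, Finset.sum_apply']
  push_cast
  refine Finset.sum_congr rfl fun p _ => ?_
  rw [map_smul, Finsupp.smul_apply, smul_eq_mul]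
  generalize b.repr (b p.1 * b p.2 ^ 2) ⟨k, hk⟩ = u
  generalize N.testBit p.1 = s
  generalize N.testBit p.2 = t
  revert u
  cases s <;> cases t <;> decide

theorem ev_G (N : ℕ) : Ev (G b N) := by
  intro k
  by_cases h : 2 * k + 1 < 4 * n
  · rw [testBit_G b h, digit_odd]
  · unfold G
    rw [Nat.testBit_ofBits_ge _ _ (not_lt.1 h)]

theorem G_inj {N M : ℕ} (hN : N < 2 ^ n) (hM : M < 2 ^ n)
    (h : ∀ k < n, N.testBit k = M.testBit k) : N = M := by
  refine Nat.eq_of_testBit_eq fun k => ?_
  by_cases hk : k < n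
  · exact h k hk
  · have h1 : ∀ x < 2 ^ n, Nat.testBit x k = false := fun x hx =>
      Nat.testBit_lt_two_pow (hx.trans_le (Nat.pow_le_pow_right (by norm_num) (not_lt.1 hk)))
    rw [h1 N hN, h1 M hM]

theorem val_inj {N M : ℕ} (hN : N < 2 ^ n) (hM : M < 2 ^ n) (h : val b N = val b M) : N = M := by
  refine G_inj hN hM fun k hk => ?_
  have h1 := repr_val b N ⟨k, hk⟩
  rw [h, repr_val] at h1
  exact (B_inj h1).symm

theorem pairs [CharP F 2] {N N' M M' : ℕ} (hN : N < 2 ^ n) (hN' : N' < 2 ^ n) (hM : M < 2 ^ n)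
    (hM' : M' < 2 ^ n) (h : G b N + G b N' = G b M + G b M') :
    (M = N ∧ M' = N') ∨ (M = N' ∧ M' = N) := by
  have hx : ∀ k, k < 2 * n → ((digit b N (2 * k)) ^^ (digit b N' (2 * k))) =
      ((digit b M (2 * k)) ^^ (digit b M' (2 * k))) := by
    intro k hk
    have h1 := (add_even k (ev_G b N) (ev_G b N')).1
    have h2 := (add_even k (ev_G b M) (ev_G b M')).1
    rw [h] at h1
    have h3 := h1.symm.trans h2
    have hk4 : 2 * k < 4 * n := by omega
    rw [testBit_G b hk4, testBit_G b hk4, testBit_G b hk4, testBit_G b hk4] at h3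
    exact h3
  have ha : ∀ k, k < 2 * n → ((digit b N (2 * k)) && (digit b N' (2 * k))) =
      ((digit b M (2 * k)) && (digit b M' (2 * k))) := by
    intro k hk
    have h1 := (add_even k (ev_G b N) (ev_G b N')).2
    have h2 := (add_even k (ev_G b M) (ev_G b M')).2
    rw [h] at h1
    have h3 := h1.symm.trans h2
    have hk4 : 2 * k < 4 * n := by omega
    rw [testBit_G b hk4, testBit_G b hk4, testBit_G b hk4, testBit_G b hk4] at h3
    exact h3
  have e1 : val b N + val b N' = val b M + val b M' := by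
    refine b.ext_elem fun i => ?_
    rw [map_add, map_add, Finsupp.add_apply, Finsupp.add_apply, repr_val, repr_val, repr_val,
      repr_val, ← B_xor, ← B_xor]
    have h1 := hx i (by have := i.2; omega)
    rw [digit_low b _ _ i.2, digit_low b _ _ i.2, digit_low b _ _ i.2, digit_low b _ _ i.2] at h1
    rw [h1]
  have e3 : val b N ^ 3 + val b N' ^ 3 = val b M ^ 3 + val b M' ^ 3 := by
    refine b.ext_elem fun i => ?_
    have h1 := hx (n + i) (by have := i.2; omega)
    rw [map_add, map_add, Finsupp.add_apply, Finsupp.add_apply, ← digit_high b N i i.2,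
      ← digit_high b N' i i.2, ← digit_high b M i i.2, ← digit_high b M' i i.2, ← B_xor, ← B_xor, h1]
  by_cases h0 : val b N + val b N' = 0
  · have e5 : N = N' := val_inj b hN hN' (by
      have h2 : val b N = - val b N' := eq_neg_of_add_eq_zero_left h0
      rw [h2, CharTwo.neg_eq])
    have e6 : M = M' := val_inj b hM hM' (by
      rw [e1] at h0
      have h2 : val b M = - val b M' := eq_neg_of_add_eq_zero_left h0
      rw [h2, CharTwo.neg_eq])
    subst e5
    subst e6
    have e7 : N = M := G_inj hN hM fun k hk => by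
      have h1 := ha k (by omega)
      rw [digit_low b _ _ hk, digit_low b _ _ hk, Bool.and_self, Bool.and_self] at h1
      exact h1
    exact Or.inl ⟨e7.symm, e7.symm⟩
  · rcases field_two e1 e3 h0 with h1 | h1
    · have e5 : M = N := val_inj b hM hN h1
      rw [h1] at e1
      exact Or.inl ⟨e5, (val_inj b hN' hM' (add_left_cancel e1)).symm⟩
    · have e5 : M = N' := val_inj b hM hN' h1
      rw [h1, add_comm] at e1
      exact Or.inr ⟨e5, (val_inj b hN hM' (add_left_cancel e1)).symm⟩

theorem rep_le [CharP F 2] (m : ℕ) : rep (G b '' {N | N < 2 ^ n}) m ≤ 2 := by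
  unfold rep
  by_cases he : {p : ℕ × ℕ | p.1 ∈ G b '' {N | N < 2 ^ n} ∧ p.2 ∈ G b '' {N | N < 2 ^ n} ∧
      p.1 + p.2 = m} = ∅
  · rw [he]
    simp
  · obtain ⟨p, ⟨⟨N, hN, h1⟩, ⟨N', hN', h2⟩, h3⟩⟩ := Set.nonempty_iff_ne_empty.2 he
    have hsub : {p : ℕ × ℕ | p.1 ∈ G b '' {N | N < 2 ^ n} ∧ p.2 ∈ G b '' {N | N < 2 ^ n} ∧
        p.1 + p.2 = m} ⊆ {(G b N, G b N'), (G b N', G b N)} := by
      rintro q ⟨⟨M, hM, g1⟩, ⟨M', hM', g2⟩, g3⟩
      have h4 : G b N + G b N' = G b M + G b M' := by
        rw [h1, h2, g1, g2, h3, g3]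
      rcases pairs b hN hN' hM hM' h4 with ⟨e1, e2⟩ | ⟨e1, e2⟩
      · left
        rw [e1] at g1
        rw [e2] at g2
        exact Prod.ext g1.symm g2.symm
      · right
        rw [e1] at g1
        rw [e2] at g2
        exact Prod.ext g1.symm g2.symm
    refine (Set.ncard_le_ncard hsub (Set.toFinite _)).trans ?_
    refine (Set.ncard_insert_le _ _).trans ?_
    rw [Set.ncard_singleton]

end Field

/-- with XOR gates the finite form of the theorem on parametrisations is false -/
theorem xor_barrier (n : ℕ) : ∃ (A : Set ℕ) (G : ℕ → ℕ) (P : ℕ → Finset (Fin n × Fin n)),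
    (∀ m, rep A m ≤ 2) ∧ Set.InjOn G {N | N < 2 ^ n} ∧
    (∀ N < 2 ^ n, G N ∈ A ∧ G N < 2 ^ (4 * n)) ∧
    ∀ i < 4 * n, ∀ x : Fin n → Bool, (G (Nat.ofBits x)).testBit i =
      decide (Odd ((P i).filter (fun p => x p.1 = true ∧ x p.2 = true)).card) := by
  rcases Nat.eq_zero_or_pos n with hn | hn
  · subst hn
    refine ⟨{0}, fun _ => 0, fun _ => ∅, fun m => ?_, ?_, fun N _ => ⟨rfl, by norm_num⟩, ?_⟩
    · unfold rep
      have hsub : {p : ℕ × ℕ | p.1 ∈ ({0} : Set ℕ) ∧ p.2 ∈ ({0} : Set ℕ) ∧ p.1 + p.2 = m} ⊆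
          {(0, 0)} := by
        rintro p ⟨h1, h2, _⟩
        exact Prod.ext h1 h2
      refine (Set.ncard_le_ncard hsub (Set.toFinite _)).trans ?_
      simp
    · intro a ha c hc _
      have h1 : a < 2 ^ 0 := ha
      have h2 : c < 2 ^ 0 := hc
      norm_num at h1 h2
      rw [h1, h2]
    · intro i hi
      omega
  · have : Fact (Nat.Prime 2) := ⟨Nat.prime_two⟩
    have hf : Module.finrank (ZMod 2) (GaloisField 2 n) = n := GaloisField.finrank 2 hn.ne'
    let b : Module.Basis (Fin n) (ZMod 2) (GaloisField 2 n) := Module.finBasisOfFinrankEq _ _ hf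
    refine ⟨G b '' {N | N < 2 ^ n}, G b, Q b, rep_le b, ?_, fun N hN => ⟨⟨N, hN, rfl⟩, ?_⟩, ?_⟩
    · intro N hN M hM h
      refine G_inj hN hM fun k hk => ?_
      have h1 : (G b N).testBit (2 * k) = (G b M).testBit (2 * k) := by rw [h]
      rw [testBit_G b (by omega), testBit_G b (by omega), digit_low b _ _ hk, digit_low b _ _ hk]
        at h1
      exact h1
    · exact Nat.ofBits_lt_two_pow _
    · intro i hi x
      rw [testBit_G b hi]
      unfold digit
      have h1 : ∀ j : Fin n, (Nat.ofBits x).testBit j = x j := fun j =>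
        Nat.testBit_ofBits_lt _ _ j.2
      simp only [h1]

end Pool.Agent.Helper45.AC.Bar
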