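import Mathlib

/-!
Binary linear codes of rate about `1 / 2` have heavy codewords, and many codewords below one of
them.
-/

set_option autoImplicit false

open Finset Module

namespace Pool.Agent.Helper45.AC

/-- the nontrivial character of `ZMod 2` -/
noncomputable def chi (a : ZMod 2) : ℝ := if a = 0 then 1 else -1

/-- weights 1 and 3 -/
noncomputable def wgt (a : ZMod 2) : ℝ := if a = 0 then 1 else 3

theorem zmod2_cases (a : ZMod 2) : a = 0 ∨ a = 1 := by
  revert a
  decide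

theorem chi_zero : chi 0 = 1 := by simp [chi]

theorem chi_one : chi 1 = -1 := by simp [chi]

theorem chi_add (a b : ZMod 2) : chi (a + b) = chi a * chi b := by
  rcases zmod2_cases a with rfl | rfl <;> rcases zmod2_cases b with rfl | rfl <;>
    simp [chi, show (1 : ZMod 2) + 1 = 0 from rfl]

theorem chi_sum {ι : Type} (s : Finset ι) (f : ι → ZMod 2) :
    chi (∑ i ∈ s, f i) = ∏ i ∈ s, chi (f i) := by
  classical
  induction s using Finset.induction_on with
  | empty => simp [chi]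
  | insert a s ha ih => rw [Finset.sum_insert ha, Finset.prod_insert ha, chi_add, ih]

theorem sum_zmod2 (f : ZMod 2 → ℝ) : ∑ a, f a = f 0 + f 1 := by
  have : (Finset.univ : Finset (ZMod 2)) = {0, 1} := rfl
  rw [this, Finset.sum_pair (by decide)]

variable {κ : Type} [Fintype κ] [DecidableEq κ]

theorem sum_wgt_chi (c : κ → ZMod 2) :
    ∑ x : κ → ZMod 2, (∏ i, wgt (x i)) * chi (∑ i, x i * c i) =
      ∏ i, (if c i = 0 then 4 else (-2 : ℝ)) := by
  have h1 : ∀ x : κ → ZMod 2, (∏ i, wgt (x i)) * chi (∑ i, x i * c i) =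
      ∏ i, (wgt (x i) * chi (x i * c i)) := by
    intro x
    rw [chi_sum, Finset.prod_mul_distrib]
  simp_rw [h1]
  have h2 := Finset.prod_univ_sum (fun _ : κ => (Finset.univ : Finset (ZMod 2)))
    (fun i a => wgt a * chi (a * c i))
  rw [Fintype.piFinset_univ] at h2
  rw [← h2]
  refine Finset.prod_congr rfl fun i _ => ?_
  rw [sum_zmod2]
  rcases zmod2_cases (c i) with h | h
  · rw [h]
    simp [wgt, chi]
    norm_num
  · rw [h]
    simp [wgt, chi]
    norm_num

theorem sum_wgt : ∑ x : κ → ZMod 2, (∏ i, wgt (x i)) = 4 ^ Fintype.card κ := by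
  have h := sum_wgt_chi (fun _ : κ => (0 : ZMod 2))
  simpa [chi_zero] using h

theorem prod_le (c : κ → ZMod 2) (hc : c ≠ 0) :
    ∏ i, (if c i = 0 then 4 else (-2 : ℝ)) ≤ 4 ^ Fintype.card κ / 4 := by
  have h1 : ∏ i, (if c i = 0 then 4 else (-2 : ℝ)) =
      (-2) ^ (#{i | c i ≠ 0}) * 4 ^ (#{i | c i = 0}) := by
    rw [Finset.prod_ite, Finset.prod_const, Finset.prod_const, mul_comm]
  have h2 : #{i | c i = 0} + #{i | c i ≠ 0} = Fintype.card κ := by
    rw [Finset.card_filter_add_card_filter_not]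
    rfl
  have h3 : 0 < #{i | c i ≠ 0} := by
    rw [Finset.card_pos]
    obtain ⟨i, hi⟩ := Function.ne_iff.1 hc
    exact ⟨i, by simpa using hi⟩
  rw [h1, ← h2]
  set r := #{i | c i ≠ 0} with hr
  set t := #{i | c i = 0} with ht
  have h4 : (-2 : ℝ) ^ r ≤ 4 ^ r / 4 := by
    rcases Nat.lt_or_ge 1 r with h5 | h5
    · obtain ⟨k, hk⟩ : ∃ k, r = k + 2 := ⟨r - 2, by omega⟩
      have h6 : (-2 : ℝ) ^ r ≤ 2 ^ r := by
        calc (-2 : ℝ) ^ r ≤ |(-2 : ℝ) ^ r| := le_abs_self _
          _ = 2 ^ r := by rw [abs_pow]; norm_num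
      have h7 : (2 : ℝ) ^ k ≤ 4 ^ k := pow_le_pow_left₀ (by norm_num) (by norm_num) k
      rw [hk] at h6 ⊢
      calc (-2 : ℝ) ^ (k + 2) ≤ 2 ^ (k + 2) := h6
        _ = 4 * 2 ^ k := by ring
        _ ≤ 4 * 4 ^ k := by linarith
        _ = 4 ^ (k + 2) / 4 := by ring
    · have : r = 1 := by omega
      rw [this]
      norm_num
  calc (-2 : ℝ) ^ r * 4 ^ t ≤ 4 ^ r / 4 * 4 ^ t :=
        mul_le_mul_of_nonneg_right h4 (by positivity)
    _ = 4 ^ (t + r) / 4 := by rw [pow_add]; ring

theorem prod_single (i₀ : κ) :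
    ∏ i, (if (Pi.single i₀ 1 : κ → ZMod 2) i = 0 then 4 else (-2 : ℝ)) =
      -(4 ^ Fintype.card κ / 2) := by
  rw [← Finset.mul_prod_erase Finset.univ _ (Finset.mem_univ i₀)]
  have h1 : ∏ i ∈ Finset.univ.erase i₀,
      (if (Pi.single i₀ 1 : κ → ZMod 2) i = 0 then 4 else (-2 : ℝ)) =
      4 ^ (Fintype.card κ - 1) := by
    rw [Finset.prod_congr rfl (g := fun _ => (4 : ℝ))]
    · rw [Finset.prod_const, Finset.card_erase_of_mem (Finset.mem_univ _), Finset.card_univ]
    · intro i hi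
      rw [Pi.single_eq_of_ne (Finset.ne_of_mem_erase hi), if_pos rfl]
  rw [h1]
  obtain ⟨k, hk⟩ : ∃ k, Fintype.card κ = k + 1 :=
    ⟨Fintype.card κ - 1, by have := Fintype.card_pos_iff.2 ⟨i₀⟩; omega⟩
  rw [hk]
  simp
  ring

/-- indicator in terms of the character -/
theorem ind_eq (a : ZMod 2) : (if a = 1 then 1 else 0 : ℝ) = (1 - chi a) / 2 := by
  rcases zmod2_cases a with rfl | rfl <;> norm_num [chi]

section

variable {V : Type} [AddCommGroup V] [Module (ZMod 2) V] [Module.Finite (ZMod 2) V]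
  {K : Type} [Fintype K]

/-- a dual pair of bases taken from a family of functionals without common zero -/
theorem exists_info (ψ : K → Dual (ZMod 2) V) (hinj : ∀ v, (∀ k, ψ k v = 0) → v = 0) :
    ∃ (κ : Type) (_ : Fintype κ) (_ : DecidableEq κ) (a : κ → K) (e : Basis κ (ZMod 2) V),
      Function.Injective a ∧ ∀ i j, ψ (a i) (e j) = if i = j then 1 else 0 := by
  classical
  obtain ⟨κ, a, ha, hspan, hli⟩ := exists_linearIndependent' (ZMod 2) ψ
  have htop : Submodule.span (ZMod 2) (Set.range ψ) = ⊤ := by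
    have h1 : (Submodule.span (ZMod 2) (Set.range ψ)).dualCoannihilator = ⊥ := by
      rw [eq_bot_iff]
      intro v hv
      rw [Submodule.mem_dualCoannihilator] at hv
      exact hinj v fun k => hv _ (Submodule.subset_span ⟨k, rfl⟩)
    have h2 := Subspace.dualCoannihilator_dualAnnihilator_eq
      (W := Submodule.span (ZMod 2) (Set.range ψ))
    rw [h1, Submodule.dualAnnihilator_bot] at h2
    exact h2.symm
  haveI : Finite κ := Finite.of_injective a ha
  haveI : Fintype κ := Fintype.ofFinite κ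
  let β : Basis κ (ZMod 2) (Dual (ZMod 2) V) := Basis.mk hli (by rw [hspan, htop])
  let e : Basis κ (ZMod 2) V := β.dualBasis.map (Module.evalEquiv (ZMod 2) V).symm
  refine ⟨κ, inferInstance, inferInstance, a, e, ha, fun i j => ?_⟩
  have h1 : ψ (a i) = β i := by simp [β]
  have h2 : ∀ φ : Dual (ZMod 2) V, φ (e j) = β.dualBasis j φ := by
    intro φ
    have h3 : Module.evalEquiv (ZMod 2) V (e j) = β.dualBasis j := by
      simp [e]
    rw [← h3]
    rfl
  rw [h2, h1, Basis.dualBasis_apply_self]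

open Classical in
/-- **Heavy codewords.** -/
theorem exists_heavy (ψ : K → Dual (ZMod 2) V) (hinj : ∀ v, (∀ k, ψ k v = 0) → v = 0) :
    ∃ s : V, 3 * (#{k | ψ k ≠ 0} + finrank (ZMod 2) V) ≤ 8 * #{k | ψ k s = 1} := by
  classical
  obtain ⟨κ, _, _, a, e, ha, hdual⟩ := exists_info ψ hinj
  have hcard : finrank (ZMod 2) V = Fintype.card κ := Module.finrank_eq_card_basis e
  set S : (κ → ZMod 2) → V := fun x => ∑ i, x i • e i with hS
  set W : (κ → ZMod 2) → ℝ := fun x => ∏ i, wgt (x i) with hW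
  have hW0 : ∀ x, 0 ≤ W x := fun x => Finset.prod_nonneg fun i _ => by
    unfold wgt
    split_ifs <;> norm_num
  have hψS : ∀ k x, ψ k (S x) = ∑ i, x i * ψ k (e i) := by
    intro k x
    simp [hS, map_sum]
  have key : ∀ k, ∑ x, W x * (if ψ k (S x) = 1 then 1 else 0 : ℝ) =
      (4 ^ Fintype.card κ - ∏ i, (if ψ k (e i) = 0 then 4 else (-2 : ℝ))) / 2 := by
    intro k
    have h1 : ∀ x, W x * (if ψ k (S x) = 1 then 1 else 0 : ℝ) =
        (W x - W x * chi (∑ i, x i * ψ k (e i))) / 2 := by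
      intro x
      rw [ind_eq, hψS]
      ring
    simp_rw [h1]
    rw [← Finset.sum_div, Finset.sum_sub_distrib, sum_wgt_chi (fun i => ψ k (e i)), sum_wgt]
  -- lower bounds
  have low1 : ∀ k, ψ k ≠ 0 → 3 / 8 * (4 : ℝ) ^ Fintype.card κ ≤
      ∑ x, W x * (if ψ k (S x) = 1 then 1 else 0 : ℝ) := by
    intro k hk
    rw [key]
    have hc : (fun i => ψ k (e i)) ≠ 0 := by
      intro h0
      exact hk (e.ext fun i => by simpa using congrFun h0 i)
    have := prod_le (fun i => ψ k (e i)) hc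
    linarith
  have low2 : ∀ i, 3 / 4 * (4 : ℝ) ^ Fintype.card κ ≤
      ∑ x, W x * (if ψ (a i) (S x) = 1 then 1 else 0 : ℝ) := by
    intro i
    rw [key]
    have hc : (fun j => ψ (a i) (e j)) = (Pi.single i 1 : κ → ZMod 2) := by
      funext j
      rw [hdual, Pi.single_apply]
      by_cases hij : i = j
      · simp [hij]
      · rw [if_neg hij, if_neg (fun h => hij h.symm)]
    have h1 : ∏ j, (if ψ (a i) (e j) = 0 then 4 else (-2 : ℝ)) = -(4 ^ Fintype.card κ / 2) := by
      rw [← prod_single i]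
      refine Finset.prod_congr rfl fun j _ => ?_
      rw [← hc]
    rw [h1]
    linarith
  have hne : ∀ i, ψ (a i) ≠ 0 := by
    intro i h0
    have := hdual i i
    rw [h0] at this
    simp at this
  -- total
  have htot : 3 / 8 * (4 : ℝ) ^ Fintype.card κ * (#{k | ψ k ≠ 0} + Fintype.card κ) ≤
      ∑ x, W x * (#{k | ψ k (S x) = 1} : ℝ) := by
    have h1 : ∑ x, W x * (#{k | ψ k (S x) = 1} : ℝ) =
        ∑ k, ∑ x, W x * (if ψ k (S x) = 1 then 1 else 0 : ℝ) := by
      rw [Finset.sum_comm]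
      refine Finset.sum_congr rfl fun x _ => ?_
      rw [← Finset.mul_sum, Finset.sum_boole]
    rw [h1]
    set N0 : Finset K := {k | ψ k ≠ 0} with hN0
    set I : Finset K := Finset.univ.image a with hI
    have hIN : I ⊆ N0 := by
      intro k hk
      obtain ⟨i, -, rfl⟩ := Finset.mem_image.1 hk
      simp [hN0, hne]
    have hIc : I.card = Fintype.card κ := by
      rw [hI, Finset.card_image_of_injective _ ha, Finset.card_univ]
    have hnn : ∀ k, 0 ≤ ∑ x, W x * (if ψ k (S x) = 1 then 1 else 0 : ℝ) := fun k =>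
      Finset.sum_nonneg fun x _ => mul_nonneg (hW0 x) (by split_ifs <;> norm_num)
    have h2 : ∑ k ∈ N0, ∑ x, W x * (if ψ k (S x) = 1 then 1 else 0 : ℝ) ≤
        ∑ k, ∑ x, W x * (if ψ k (S x) = 1 then 1 else 0 : ℝ) :=
      Finset.sum_le_sum_of_subset_of_nonneg (Finset.subset_univ _) fun k _ _ => hnn k
    refine le_trans ?_ h2
    rw [← Finset.sum_sdiff hIN]
    have h3 : 3 / 8 * (4 : ℝ) ^ Fintype.card κ * ((N0 \ I).card : ℝ) ≤
        ∑ k ∈ N0 \ I, ∑ x, W x * (if ψ k (S x) = 1 then 1 else 0 : ℝ) := by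
      rw [mul_comm, ← nsmul_eq_mul]
      refine Finset.card_nsmul_le_sum _ _ _ fun k hk => low1 k ?_
      have := (Finset.mem_sdiff.1 hk).1
      simpa [hN0] using this
    have h4 : 3 / 4 * (4 : ℝ) ^ Fintype.card κ * (I.card : ℝ) ≤
        ∑ k ∈ I, ∑ x, W x * (if ψ k (S x) = 1 then 1 else 0 : ℝ) := by
      rw [mul_comm, ← nsmul_eq_mul]
      refine Finset.card_nsmul_le_sum _ _ _ fun k hk => ?_
      obtain ⟨i, -, rfl⟩ := Finset.mem_image.1 hk
      exact low2 i
    have h5 : ((N0 \ I).card : ℝ) = N0.card - I.card := by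
      rw [Finset.card_sdiff_of_subset hIN, Nat.cast_sub (Finset.card_le_card hIN)]
    rw [h5] at h3
    have h6 : (Fintype.card κ : ℝ) = I.card := by rw [hIc]
    rw [h6]
    have h7 : 3 / 8 * (4 : ℝ) ^ Fintype.card κ * (N0.card + I.card) =
        3 / 8 * (4 : ℝ) ^ Fintype.card κ * (N0.card - I.card) +
          3 / 4 * (4 : ℝ) ^ Fintype.card κ * I.card := by ring
    rw [h7]
    exact add_le_add h3 h4
  -- choice
  obtain ⟨x, hx⟩ : ∃ x, 3 / 8 * ((#{k | ψ k ≠ 0} : ℝ) + Fintype.card κ) ≤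
      (#{k | ψ k (S x) = 1} : ℝ) := by
    by_contra hcon
    push Not at hcon
    have h1 : ∑ x, W x * (#{k | ψ k (S x) = 1} : ℝ) <
        ∑ x, W x * (3 / 8 * ((#{k | ψ k ≠ 0} : ℝ) + Fintype.card κ)) := by
      refine Finset.sum_lt_sum (fun x _ => mul_le_mul_of_nonneg_left (hcon x).le (hW0 x))
        ⟨0, Finset.mem_univ _, ?_⟩
      refine mul_lt_mul_of_pos_left (hcon 0) ?_
      exact Finset.prod_pos fun i _ => by simp [wgt]
    have h2 : ∑ x, W x * (3 / 8 * ((#{k | ψ k ≠ 0} : ℝ) + Fintype.card κ)) =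
        4 ^ Fintype.card κ * (3 / 8 * ((#{k | ψ k ≠ 0} : ℝ) + Fintype.card κ)) := by
      rw [← Finset.sum_mul, sum_wgt]
    rw [h2] at h1
    have h3 : (3 : ℝ) / 8 * 4 ^ Fintype.card κ * (#{k | ψ k ≠ 0} + Fintype.card κ) =
        4 ^ Fintype.card κ * (3 / 8 * ((#{k | ψ k ≠ 0} : ℝ) + Fintype.card κ)) := by ring
    rw [h3] at htot
    exact absurd h1 (not_lt.2 htot)
  refine ⟨S x, ?_⟩
  rw [hcard]
  have : (3 : ℝ) * (#{k | ψ k ≠ 0} + Fintype.card κ) ≤ 8 * #{k | ψ k (S x) = 1} := by linarith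
  exact_mod_cast this

/-- **Many codewords below one codeword.** -/
theorem exists_below (ψ : K → Dual (ZMod 2) V) (hinj : ∀ v, (∀ k, ψ k v = 0) → v = 0) :
    ∃ (s : V) (W : Submodule (ZMod 2) V), (∀ w ∈ W, ∀ k, ψ k s = 0 → ψ k w = 0) ∧
      11 * finrank (ZMod 2) V ≤ 8 * finrank (ZMod 2) W + 5 * Fintype.card K := by
  classical
  obtain ⟨s, hs⟩ := exists_heavy ψ hinj
  set J : Finset K := {k | ψ k ≠ 0 ∧ ψ k s = 0} with hJ
  set Φ : V →ₗ[ZMod 2] (J → ZMod 2) := LinearMap.pi fun k : J => ψ k with hΦ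
  refine ⟨s, LinearMap.ker Φ, ?_, ?_⟩
  · intro w hw k hk
    by_cases h0 : ψ k = 0
    · rw [h0]
      rfl
    · have hkJ : k ∈ J := by simp [hJ, h0, hk]
      have := congrFun (LinearMap.mem_ker.1 hw) ⟨k, hkJ⟩
      simpa [hΦ] using this
  · have h1 := LinearMap.finrank_range_add_finrank_ker Φ
    have h2 : finrank (ZMod 2) (LinearMap.range Φ) ≤ J.card := by
      have := Submodule.finrank_le (LinearMap.range Φ)
      rw [Module.finrank_fintype_fun_eq_card, Fintype.card_coe] at this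
      exact this
    have h3 : J.card + #{k | ψ k s = 1} = #{k | ψ k ≠ 0} := by
      rw [← Finset.card_union_of_disjoint]
      · congr 1
        ext k
        simp only [hJ, Finset.mem_union, Finset.mem_filter, Finset.mem_univ, true_and]
        constructor
        · rintro (h | h)
          · exact h.1
          · intro h0
            rw [h0] at h
            simp at h
        · intro h
          rcases zmod2_cases (ψ k s) with h' | h'
          · exact Or.inl ⟨h, h'⟩
          · exact Or.inr h'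
      · rw [Finset.disjoint_left]
        intro k hk hk'
        simp only [hJ, Finset.mem_filter, Finset.mem_univ, true_and] at hk hk'
        rw [hk.2] at hk'
        simp at hk'
    have h4 : #{k | ψ k ≠ 0} ≤ Fintype.card K := Finset.card_le_univ _
    omega

end

end Pool.Agent.Helper45.AC
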