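import Pool.Agent.Helper45.AC.Barrier
import Pool.Agent.Helper45.AC.Code

/-! Linear maps over the field with two elements whose images are Sidon sets of integers. -/

set_option autoImplicit false

namespace Pool.Agent.Helper45.AC.Bar

open Finset
open Pool.Agent.Helper72.AC (rep)
open Pool.Agent.Helper45.AC (chi chi_add chi_sum chi_one chi_zero zmod2_cases)

/-- the scalar product -/
def dot {n : ℕ} (u s : Fin n → ZMod 2) : ZMod 2 := ∑ i, u i * s i

theorem dot_add_left {n : ℕ} (u w s : Fin n → ZMod 2) : dot (u + w) s = dot u s + dot w s := by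
  unfold dot
  rw [← Finset.sum_add_distrib]
  exact Finset.sum_congr rfl fun i _ => by rw [Pi.add_apply, add_mul]

theorem dot_add_right {n : ℕ} (u s w : Fin n → ZMod 2) : dot u (s + w) = dot u s + dot u w := by
  unfold dot
  rw [← Finset.sum_add_distrib]
  exact Finset.sum_congr rfl fun i _ => by rw [Pi.add_apply, mul_add]

theorem sum_chi {n : ℕ} (w : Fin n → ZMod 2) (hw : w ≠ 0) : ∑ u, chi (dot u w) = 0 := by
  obtain ⟨i, hi⟩ := Function.ne_iff.1 hw
  have hi1 : w i = 1 := (zmod2_cases (w i)).resolve_left hi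
  have h1 := Equiv.sum_comp (Equiv.addRight (Pi.single i 1 : Fin n → ZMod 2))
    (fun u => chi (dot u w))
  have h2 : ∀ u : Fin n → ZMod 2,
      chi (dot ((Equiv.addRight (Pi.single i 1 : Fin n → ZMod 2)) u) w) = - chi (dot u w) := by
    intro u
    rw [Equiv.coe_addRight, dot_add_left, chi_add]
    have h3 : dot (Pi.single i 1 : Fin n → ZMod 2) w = 1 := by
      unfold dot
      rw [Finset.sum_eq_single i]
      · simp [hi1]
      · intro j _ hj
        simp [hj]
      · simp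
    rw [h3, chi_one]
    ring
  rw [Finset.sum_congr rfl fun u _ => h2 u, Finset.sum_neg_distrib] at h1
  linarith

theorem card_good {n : ℕ} (s v : Fin n → ZMod 2) (hv : v ≠ 0) (hs : s ≠ v) :
    (2 : ℝ) ^ n ≤ 4 * (#{u : Fin n → ZMod 2 | dot u s = 0 ∧ dot u v = 1} : ℝ) := by
  have h1 : ∀ u : Fin n → ZMod 2, (if dot u s = 0 ∧ dot u v = 1 then (1 : ℝ) else 0) =
      (1 + chi (dot u s) - chi (dot u v) - chi (dot u (s + v))) / 4 := by
    intro u
    rw [dot_add_right, chi_add]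
    rcases zmod2_cases (dot u s) with h | h <;> rcases zmod2_cases (dot u v) with h' | h' <;>
      rw [h, h'] <;> norm_num [chi]
  have h2 : (#{u : Fin n → ZMod 2 | dot u s = 0 ∧ dot u v = 1} : ℝ) =
      ∑ u : Fin n → ZMod 2, (if dot u s = 0 ∧ dot u v = 1 then (1 : ℝ) else 0) := by
    rw [Finset.sum_boole]
  have hsv : s + v ≠ 0 := by
    intro h0
    apply hs
    funext i
    have h3 : s i + v i = 0 := congrFun h0 i
    revert h3
    generalize s i = a
    generalize v i = b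
    revert a b
    decide
  rw [h2, Finset.sum_congr rfl fun u _ => h1 u, ← Finset.sum_div, Finset.sum_sub_distrib,
    Finset.sum_sub_distrib, Finset.sum_add_distrib, sum_chi v hv, sum_chi _ hsv, Finset.sum_const,
    Finset.card_univ, Fintype.card_fun, ZMod.card, Fintype.card_fin]
  have h4 : 0 ≤ ∑ u, chi (dot u s) := by
    by_cases h0 : s = 0
    · refine Finset.sum_nonneg fun u _ => ?_
      have : dot u s = 0 := by
        rw [h0]
        unfold dot
        simp
      rw [this, chi_zero]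
      norm_num
    · rw [sum_chi s h0]
  have h5 : (2 ^ n : ℕ) • (1 : ℝ) = 2 ^ n := by simp
  rw [h5]
  linarith

theorem card_bad {n : ℕ} (s v : Fin n → ZMod 2) (hv : v ≠ 0) (hs : s ≠ v) :
    4 * #{u : Fin n → ZMod 2 | ¬ (dot u s = 0 ∧ dot u v = 1)} ≤ 3 * 2 ^ n := by
  have h1 : 2 ^ n ≤ 4 * #{u : Fin n → ZMod 2 | dot u s = 0 ∧ dot u v = 1} := by
    have := card_good s v hv hs
    exact_mod_cast this
  have h2 : #{u : Fin n → ZMod 2 | dot u s = 0 ∧ dot u v = 1} +
      #{u : Fin n → ZMod 2 | ¬ (dot u s = 0 ∧ dot u v = 1)} = 2 ^ n := by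
    rw [Finset.card_filter_add_card_filter_not, Finset.card_univ, Fintype.card_fun, ZMod.card,
      Fintype.card_fin]
  omega

/-- a linear code of length `5 n` all of whose nonzero words are minimal -/
theorem exists_code (n : ℕ) : ∃ φ : Fin (5 * n) → Fin n → ZMod 2, ∀ s v : Fin n → ZMod 2,
    v ≠ 0 → s ≠ v → ∃ k, dot (φ k) s = 0 ∧ dot (φ k) v = 1 := by
  classical
  rcases Nat.eq_zero_or_pos n with hn | hn
  · subst hn
    exact ⟨fun _ => 0, fun s v hv _ => absurd (Subsingleton.elim v 0) hv⟩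
  by_contra hcon
  push Not at hcon
  -- union bound
  have h1 : (Finset.univ : Finset (Fin (5 * n) → Fin n → ZMod 2)) ⊆
      (Finset.univ.filter fun p : (Fin n → ZMod 2) × (Fin n → ZMod 2) => p.2 ≠ 0 ∧ p.1 ≠ p.2).biUnion
        fun p => Fintype.piFinset fun _ : Fin (5 * n) =>
          {u : Fin n → ZMod 2 | ¬ (dot u p.1 = 0 ∧ dot u p.2 = 1)} := by
    intro φ _
    obtain ⟨s, v, hv, hs, h⟩ := hcon φ
    rw [Finset.mem_biUnion]
    refine ⟨(s, v), by simp [hv, hs], ?_⟩
    rw [Fintype.mem_piFinset]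
    intro k
    simp only [Finset.mem_filter, Finset.mem_univ, true_and]
    intro h2
    exact h k h2.1 h2.2
  have h2 := Finset.card_le_card h1
  rw [Finset.card_univ, Fintype.card_fun, Fintype.card_fun, ZMod.card, Fintype.card_fin,
    Fintype.card_fin] at h2
  have h3 : 4 ^ (5 * n) * (2 ^ n) ^ (5 * n) ≤ (2 ^ n * 2 ^ n) * (3 ^ (5 * n) * (2 ^ n) ^ (5 * n)) := by
    calc 4 ^ (5 * n) * (2 ^ n) ^ (5 * n) ≤ 4 ^ (5 * n) * ∑ p ∈
          (Finset.univ.filter fun p : (Fin n → ZMod 2) × (Fin n → ZMod 2) =>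
            p.2 ≠ 0 ∧ p.1 ≠ p.2), (Fintype.piFinset fun _ : Fin (5 * n) =>
          {u : Fin n → ZMod 2 | ¬ (dot u p.1 = 0 ∧ dot u p.2 = 1)}).card :=
          Nat.mul_le_mul_left _ (h2.trans Finset.card_biUnion_le)
      _ = ∑ p ∈ (Finset.univ.filter fun p : (Fin n → ZMod 2) × (Fin n → ZMod 2) =>
            p.2 ≠ 0 ∧ p.1 ≠ p.2), 4 ^ (5 * n) * (Fintype.piFinset fun _ : Fin (5 * n) =>
          {u : Fin n → ZMod 2 | ¬ (dot u p.1 = 0 ∧ dot u p.2 = 1)}).card := Finset.mul_sum _ _ _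
      _ ≤ ∑ p ∈ (Finset.univ.filter fun p : (Fin n → ZMod 2) × (Fin n → ZMod 2) =>
            p.2 ≠ 0 ∧ p.1 ≠ p.2), 3 ^ (5 * n) * (2 ^ n) ^ (5 * n) := by
          refine Finset.sum_le_sum fun p hp => ?_
          rw [Finset.mem_filter] at hp
          rw [Fintype.card_piFinset, Finset.prod_const, Finset.card_univ, Fintype.card_fin,
            ← mul_pow, ← mul_pow]
          exact Nat.pow_le_pow_left (card_bad p.1 p.2 hp.2.1 hp.2.2) _
      _ = (Finset.univ.filter fun p : (Fin n → ZMod 2) × (Fin n → ZMod 2) =>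
            p.2 ≠ 0 ∧ p.1 ≠ p.2).card * (3 ^ (5 * n) * (2 ^ n) ^ (5 * n)) := by
          rw [Finset.sum_const, smul_eq_mul]
      _ ≤ (2 ^ n * 2 ^ n) * (3 ^ (5 * n) * (2 ^ n) ^ (5 * n)) := by
          refine Nat.mul_le_mul_right _ ((Finset.card_filter_le _ _).trans (le_of_eq ?_))
          rw [Finset.card_univ, Fintype.card_prod, Fintype.card_fun, ZMod.card, Fintype.card_fin]
  have h4 : 4 ^ (5 * n) ≤ 2 ^ n * 2 ^ n * 3 ^ (5 * n) := by
    refine Nat.le_of_mul_le_mul_right ?_ (show 0 < (2 ^ n) ^ (5 * n) by positivity)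
    calc _ ≤ _ := h3
      _ = _ := by ring
  have h5 : 4 ^ (5 * n) = 1024 ^ n := by rw [pow_mul]; norm_num
  have h6 : 2 ^ n * 2 ^ n * 3 ^ (5 * n) = 972 ^ n := by
    rw [pow_mul, ← mul_pow, ← mul_pow]
    norm_num
  rw [h5, h6] at h4
  exact absurd h4 (not_le.2 (Nat.pow_lt_pow_left (by norm_num) hn.ne'))

section Code

variable {n : ℕ} (φ : Fin (5 * n) → Fin n → ZMod 2)

open Classical in
/-- the linear form of the digit `j` -/
noncomputable def R (j : ℕ) : Finset (Fin n) :=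
  if j % 2 = 1 then ∅ else
  if h : j / 2 < 5 * n then univ.filter (fun i => φ ⟨j / 2, h⟩ i = 1) else ∅

/-- the digit `j` of the value at `N` -/
noncomputable def dig (N j : ℕ) : Bool :=
  decide (Odd ((R φ j).filter (fun i : Fin n => N.testBit i = true)).card)

/-- the parametrisation -/
noncomputable def H (N : ℕ) : ℕ := Nat.ofBits (fun j : Fin (10 * n) => dig φ N j)

/-- the vector of the digits -/
def vec (n N : ℕ) : Fin n → ZMod 2 := fun i => B (N.testBit i)

theorem testBit_H {N j : ℕ} (h : j < 10 * n) : (H φ N).testBit j = dig φ N j := by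
  unfold H
  rw [Nat.testBit_ofBits_lt _ _ h]

theorem dig_odd (N k : ℕ) : dig φ N (2 * k + 1) = false := by
  have h : R φ (2 * k + 1) = ∅ := by
    unfold R
    rw [if_pos (by omega)]
  unfold dig
  rw [h]
  simp

theorem dig_even (N k : ℕ) (hk : k < 5 * n) : B (dig φ N (2 * k)) = dot (φ ⟨k, hk⟩) (vec n N) := by
  classical
  have h0 : 2 * k / 2 = k := by omega
  have h : R φ (2 * k) = univ.filter (fun i => φ ⟨k, hk⟩ i = 1) := by
    unfold R
    rw [if_neg (by omega), dif_pos (by omega)]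
    simp only [h0]
  unfold dig
  rw [B_odd, h, Finset.filter_filter, Finset.card_filter]
  push_cast
  unfold dot vec
  refine Finset.sum_congr rfl fun i _ => ?_
  generalize φ ⟨k, hk⟩ i = u
  generalize N.testBit i = s
  revert u
  cases s <;> decide

theorem ev_H (N : ℕ) : Ev (H φ N) := by
  intro k
  by_cases h : 2 * k + 1 < 10 * n
  · rw [testBit_H φ h, dig_odd]
  · unfold H
    rw [Nat.testBit_ofBits_ge _ _ (not_lt.1 h)]

theorem vec_inj {N M : ℕ} (hN : N < 2 ^ n) (hM : M < 2 ^ n) (h : vec n N = vec n M) : N = M :=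
  G_inj hN hM fun k hk => B_inj (congrFun h ⟨k, hk⟩)

variable (hφ : ∀ s v : Fin n → ZMod 2, v ≠ 0 → s ≠ v → ∃ k, dot (φ k) s = 0 ∧ dot (φ k) v = 1)

include hφ

theorem add_eq_zero' {s v : Fin n → ZMod 2} (h : s + v = 0) : s = v := by
  funext i
  have h3 : s i + v i = 0 := congrFun h i
  revert h3
  generalize s i = a
  generalize v i = b
  revert a b
  decide

theorem H_pairs {N N' M M' : ℕ} (hN : N < 2 ^ n) (hN' : N' < 2 ^ n) (hM : M < 2 ^ n)
    (hM' : M' < 2 ^ n) (h : H φ N + H φ N' = H φ M + H φ M') :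
    (M = N ∧ M' = N') ∨ (M = N' ∧ M' = N) := by
  have hx : ∀ k, k < 5 * n → ((dig φ N (2 * k)) ^^ (dig φ N' (2 * k))) =
      ((dig φ M (2 * k)) ^^ (dig φ M' (2 * k))) := by
    intro k hk
    have h1 := (add_even k (ev_H φ N) (ev_H φ N')).1
    have h2 := (add_even k (ev_H φ M) (ev_H φ M')).1
    rw [h] at h1
    have h3 := h1.symm.trans h2
    have hk4 : 2 * k < 10 * n := by omega
    rw [testBit_H φ hk4, testBit_H φ hk4, testBit_H φ hk4, testBit_H φ hk4] at h3
    exact h3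
  have ha : ∀ k, k < 5 * n → ((dig φ N (2 * k)) && (dig φ N' (2 * k))) =
      ((dig φ M (2 * k)) && (dig φ M' (2 * k))) := by
    intro k hk
    have h1 := (add_even k (ev_H φ N) (ev_H φ N')).2
    have h2 := (add_even k (ev_H φ M) (ev_H φ M')).2
    rw [h] at h1
    have h3 := h1.symm.trans h2
    have hk4 : 2 * k < 10 * n := by omega
    rw [testBit_H φ hk4, testBit_H φ hk4, testBit_H φ hk4, testBit_H φ hk4] at h3
    exact h3
  have e1 : vec n N + vec n N' = vec n M + vec n M' := by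
    by_contra hne
    obtain ⟨k, -, hk⟩ := hφ 0 ((vec n N + vec n N') + (vec n M + vec n M'))
      (fun h0 => hne (add_eq_zero' φ hφ h0)) (fun h0 => hne (add_eq_zero' φ hφ h0.symm))
    have h1 := hx k k.2
    have h2 := congrArg B h1
    rw [B_xor, B_xor, dig_even φ _ _ k.2, dig_even φ _ _ k.2, dig_even φ _ _ k.2,
      dig_even φ _ _ k.2] at h2
    rw [dot_add_right, dot_add_right, dot_add_right] at hk
    simp only [Fin.eta] at h2
    rw [h2] at hk
    revert hk
    generalize dot (φ k) (vec n M) + dot (φ k) (vec n M') = a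
    revert a
    decide
  by_cases hv : vec n N + vec n M = 0
  · have e2 := add_eq_zero' φ hφ hv
    have e3 : vec n N' = vec n M' := by
      rw [e2] at e1
      exact add_left_cancel e1
    exact Or.inl ⟨(vec_inj hN hM e2).symm, (vec_inj hN' hM' e3).symm⟩
  by_cases hs : vec n N + vec n N' = vec n N + vec n M
  · have e2 : vec n N' = vec n M := add_left_cancel hs
    have e3 : vec n N = vec n M' := by
      rw [e2, add_comm] at e1
      exact add_left_cancel e1
    exact Or.inr ⟨(vec_inj hN' hM e2).symm, (vec_inj hN hM' e3).symm⟩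
  exfalso
  obtain ⟨k, hk0, hk1⟩ := hφ _ _ hv hs
  have h1 := ha k k.2
  have h2 := congrArg B h1
  rw [B_and, B_and, dig_even φ _ _ k.2, dig_even φ _ _ k.2, dig_even φ _ _ k.2,
    dig_even φ _ _ k.2] at h2
  simp only [Fin.eta] at h2
  have hk2 := hk0
  rw [e1] at hk2
  rw [dot_add_right] at hk0 hk1 hk2
  revert h2 hk0 hk1 hk2
  generalize dot (φ k) (vec n N) = a
  generalize dot (φ k) (vec n N') = b
  generalize dot (φ k) (vec n M) = c
  generalize dot (φ k) (vec n M') = d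
  revert a b c d
  decide

theorem H_rep_le (m : ℕ) : rep (H φ '' {N | N < 2 ^ n}) m ≤ 2 := by
  unfold rep
  by_cases he : {p : ℕ × ℕ | p.1 ∈ H φ '' {N | N < 2 ^ n} ∧ p.2 ∈ H φ '' {N | N < 2 ^ n} ∧
      p.1 + p.2 = m} = ∅
  · rw [he]
    simp
  · obtain ⟨p, ⟨⟨N, hN, h1⟩, ⟨N', hN', h2⟩, h3⟩⟩ := Set.nonempty_iff_ne_empty.2 he
    have hsub : {p : ℕ × ℕ | p.1 ∈ H φ '' {N | N < 2 ^ n} ∧ p.2 ∈ H φ '' {N | N < 2 ^ n} ∧
        p.1 + p.2 = m} ⊆ {(H φ N, H φ N'), (H φ N', H φ N)} := by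
      rintro q ⟨⟨M, hM, g1⟩, ⟨M', hM', g2⟩, g3⟩
      have h4 : H φ N + H φ N' = H φ M + H φ M' := by
        rw [h1, h2, g1, g2, h3, g3]
      rcases H_pairs φ hφ hN hN' hM hM' h4 with ⟨e1, e2⟩ | ⟨e1, e2⟩
      · left
        rw [e1] at g1
        rw [e2] at g2
        exact Prod.ext g1.symm g2.symm
      · right
        rw [e1] at g1
        rw [e2] at g2
        exact Prod.ext g1.symm g2.symm
    refine (Set.ncard_le_ncard hsub (Set.toFinite _)).trans ?_
    refine (Set.ncard_insert_le _ _).trans ?_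
    rw [Set.ncard_singleton]

theorem H_injOn : Set.InjOn (H φ) {N | N < 2 ^ n} := by
  intro N hN M hM h
  have h1 : H φ N + H φ N = H φ M + H φ M := by rw [h]
  rcases H_pairs φ hφ hN hN hM hM h1 with ⟨e, -⟩ | ⟨e, -⟩
  · exact e.symm
  · exact e.symm

end Code

/-- linear maps over the field with two elements parametrise Sidon sets of integers -/
theorem linear_barrier (n : ℕ) : ∃ (A : Set ℕ) (G : ℕ → ℕ) (P : ℕ → Finset (Fin n)),
    (∀ m, rep A m ≤ 2) ∧ Set.InjOn G {N | N < 2 ^ n} ∧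
    (∀ N < 2 ^ n, G N ∈ A ∧ G N < 2 ^ (10 * n)) ∧
    ∀ i < 10 * n, ∀ x : Fin n → Bool, (G (Nat.ofBits x)).testBit i =
      decide (Odd ((P i).filter (fun j => x j = true)).card) := by
  obtain ⟨φ, hφ⟩ := exists_code n
  refine ⟨H φ '' {N | N < 2 ^ n}, H φ, R φ, H_rep_le φ hφ, H_injOn φ hφ,
    fun N hN => ⟨⟨N, hN, rfl⟩, Nat.ofBits_lt_two_pow _⟩, ?_⟩
  intro i hi x
  rw [testBit_H φ hi]
  unfold dig
  have h1 : ∀ j : Fin n, (Nat.ofBits x).testBit j = x j := fun j =>
    Nat.testBit_ofBits_lt _ _ j.2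
  simp only [h1]

end Pool.Agent.Helper45.AC.Bar
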