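import Pool.Agent.Helper45.AC.Stmt

/-! Restriction of a circuit with few AND gates to an affine subspace where it is affine. -/

set_option autoImplicit false

open Finset Module

namespace Pool.Agent.Helper45.AC

open Pool.Agent.Helper72.AC (rep num)

/-- the functions obtained by XOR gates from the variables, the constants and the functions in
`L` -/
inductive Lin {n : ℕ} (L : List ((Fin n → Bool) → Bool)) : ((Fin n → Bool) → Bool) → Prop
  | var (i : Fin n) : Lin L fun x => x i
  | const (b : Bool) : Lin L fun _ => b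
  | gate (g : (Fin n → Bool) → Bool) : g ∈ L → Lin L g
  | xor (g h : (Fin n → Bool) → Bool) : Lin L g → Lin L h → Lin L fun x => g x ^^ h x

/-- lists of functions computed by AND gates and XOR gates, one for each AND gate -/
inductive XCirc {n : ℕ} : List ((Fin n → Bool) → Bool) → Prop
  | nil : XCirc []
  | and (L : List ((Fin n → Bool) → Bool)) (a b : (Fin n → Bool) → Bool) :
      XCirc L → Lin L a → Lin L b → XCirc ((fun x => a x && b x) :: L)

theorem bz_xor (a b : Bool) : bz (a ^^ b) = bz a + bz b := by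
  cases a <;> cases b <;> decide

theorem bz_and (a b : Bool) : bz (a && b) = bz a * bz b := by
  cases a <;> cases b <;> decide

/-- affine along a chart -/
def Aff {n : ℕ} {V : Type} [AddCommGroup V] [Module (ZMod 2) V]
    (ι : V →ₗ[ZMod 2] (Fin n → ZMod 2)) (x0 : Fin n → ZMod 2) (g : (Fin n → Bool) → Bool) : Prop :=
  ∃ (φ : Dual (ZMod 2) V) (c : ZMod 2), ∀ v, bz (g fun i => tb ((x0 + ι v) i)) = c + φ v

theorem lin_aff {n : ℕ} {V : Type} [AddCommGroup V] [Module (ZMod 2) V]
    (ι : V →ₗ[ZMod 2] (Fin n → ZMod 2)) (x0 : Fin n → ZMod 2) {L : List ((Fin n → Bool) → Bool)}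
    (hL : ∀ g ∈ L, Aff ι x0 g) {g : (Fin n → Bool) → Bool} (hg : Lin L g) : Aff ι x0 g := by
  induction hg with
  | var i =>
    refine ⟨(LinearMap.proj i).comp ι, x0 i, fun v => ?_⟩
    rw [bz_tb]
    rfl
  | const b => exact ⟨0, bz b, fun v => by simp⟩
  | gate g h => exact hL g h
  | xor g h _ _ ih1 ih2 =>
    obtain ⟨φ, c, h1⟩ := ih1
    obtain ⟨ψ, d, h2⟩ := ih2
    refine ⟨φ + ψ, c + d, fun v => ?_⟩
    rw [bz_xor, h1, h2, LinearMap.add_apply]
    ring

theorem exists_coset {V : Type} [AddCommGroup V] [Module (ZMod 2) V] [Module.Finite (ZMod 2) V]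
    (W : Submodule (ZMod 2) V) (T : Set V) : ∃ y : V,
      T.ncard * 2 ^ finrank (ZMod 2) W ≤
        {w : W | y + (w : V) ∈ T}.ncard * 2 ^ finrank (ZMod 2) V := by
  classical
  have : Finite V := Module.finite_of_finite (ZMod 2)
  letI : Fintype V := Fintype.ofFinite V
  letI : Fintype W := Fintype.ofFinite W
  have hV : Fintype.card V = 2 ^ finrank (ZMod 2) V := by
    have := Module.card_eq_pow_finrank (K := ZMod 2) (V := V)
    rwa [ZMod.card] at this
  have hW : Fintype.card W = 2 ^ finrank (ZMod 2) W := by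
    have := Module.card_eq_pow_finrank (K := ZMod 2) (V := W)
    rwa [ZMod.card] at this
  rw [← hV, ← hW]
  have hT : T.ncard = #{y : V | y ∈ T} := by
    rw [← Set.ncard_coe_finset]
    congr 1
    ext y
    simp
  have hc : ∀ y : V, {w : W | y + (w : V) ∈ T}.ncard = ∑ w : W, if y + (w : V) ∈ T then 1 else 0 := by
    intro y
    rw [← Finset.card_filter, ← Set.ncard_coe_finset]
    congr 1
    ext w
    simp
  have hsum : ∑ y : V, {w : W | y + (w : V) ∈ T}.ncard = Fintype.card W * T.ncard := by
    simp_rw [hc]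
    rw [Finset.sum_comm]
    have h2 : ∀ w : W, ∑ y : V, (if y + (w : V) ∈ T then 1 else 0) = T.ncard := by
      intro w
      refine (Equiv.sum_comp (Equiv.addRight (w : V)) (fun y => if y ∈ T then (1 : ℕ) else 0)).trans
        ?_
      rw [hT, Finset.card_filter]
    rw [Finset.sum_congr rfl fun w _ => h2 w, Finset.sum_const, Finset.card_univ, smul_eq_mul]
  obtain ⟨y, -, hy⟩ := Finset.exists_le_of_sum_le (s := (Finset.univ : Finset V))
    (f := fun _ => T.ncard * Fintype.card W)
    (g := fun y => {w : W | y + (w : V) ∈ T}.ncard * Fintype.card V) ⟨0, Finset.mem_univ _⟩ (by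
      rw [← Finset.sum_mul, ← Finset.sum_mul, hsum, Finset.sum_const, Finset.card_univ,
        smul_eq_mul]
      exact le_of_eq (by ring))
  exact ⟨y, hy⟩

/-- **Restriction.** -/
theorem restrict {n : ℕ} (T : Set (Fin n → ZMod 2)) {L : List ((Fin n → Bool) → Bool)}
    (hL : XCirc L) :
    ∃ (V : Type) (_ : AddCommGroup V) (_ : Module (ZMod 2) V) (_ : Module.Finite (ZMod 2) V)
      (ι : V →ₗ[ZMod 2] (Fin n → ZMod 2)) (x0 : Fin n → ZMod 2), Function.Injective ι ∧
      n ≤ finrank (ZMod 2) V + L.length ∧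
      T.ncard * 2 ^ finrank (ZMod 2) V ≤ {v : V | x0 + ι v ∈ T}.ncard * 2 ^ n ∧
      ∀ g, Lin L g → Aff ι x0 g := by
  induction hL with
  | nil =>
    refine ⟨Fin n → ZMod 2, inferInstance, inferInstance, inferInstance, LinearMap.id, 0,
      fun _ _ h => h, ?_, ?_, fun g hg => lin_aff _ _ (by simp) hg⟩
    · rw [Module.finrank_fintype_fun_eq_card, Fintype.card_fin]
      exact Nat.le_add_right _ _
    · rw [Module.finrank_fintype_fun_eq_card, Fintype.card_fin]
      simp
  | and L a b hL ha hb ih =>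
    obtain ⟨V, _, _, _, ι, x0, hinj, hdim, hcnt, haff⟩ := ih
    obtain ⟨φa, ca, hφa⟩ := haff a ha
    obtain ⟨φb, cb, hφb⟩ := haff b hb
    set W : Submodule (ZMod 2) V := LinearMap.ker φa with hW
    obtain ⟨y, hy⟩ := exists_coset W {v : V | x0 + ι v ∈ T}
    have hpt : ∀ w : W, x0 + ι y + (ι ∘ₗ W.subtype) w = x0 + ι (y + (w : V)) := by
      intro w
      rw [LinearMap.comp_apply, map_add]
      simp [add_assoc]
    refine ⟨W, inferInstance, inferInstance, inferInstance, ι ∘ₗ W.subtype, x0 + ι y, ?_, ?_, ?_,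
      fun g hg => lin_aff _ _ ?_ hg⟩
    · rw [LinearMap.coe_comp]
      exact hinj.comp W.injective_subtype
    · have h1 := LinearMap.finrank_range_add_finrank_ker φa
      have h2 : finrank (ZMod 2) (LinearMap.range φa) ≤ 1 := by
        have := Submodule.finrank_le (LinearMap.range φa)
        rwa [Module.finrank_self] at this
      have h3 : n ≤ finrank (ZMod 2) W + (L.length + 1) := by
        rw [← hW] at h1
        omega
      exact h3
    · have h1 : {w : W | x0 + ι y + (ι ∘ₗ W.subtype) w ∈ T} =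
          {w : W | y + (w : V) ∈ {v : V | x0 + ι v ∈ T}} := by
        ext w
        simp only [Set.mem_setOf_eq, hpt]
      rw [h1]
      refine Nat.le_of_mul_le_mul_right ?_ (show 0 < 2 ^ finrank (ZMod 2) V by positivity)
      calc T.ncard * 2 ^ finrank (ZMod 2) W * 2 ^ finrank (ZMod 2) V =
            T.ncard * 2 ^ finrank (ZMod 2) V * 2 ^ finrank (ZMod 2) W := by ring
        _ ≤ {v : V | x0 + ι v ∈ T}.ncard * 2 ^ n * 2 ^ finrank (ZMod 2) W :=
            Nat.mul_le_mul_right _ hcnt
        _ = {v : V | x0 + ι v ∈ T}.ncard * 2 ^ finrank (ZMod 2) W * 2 ^ n := by ring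
        _ ≤ {w : W | y + (w : V) ∈ {v : V | x0 + ι v ∈ T}}.ncard * 2 ^ finrank (ZMod 2) V * 2 ^ n :=
            Nat.mul_le_mul_right _ hy
        _ = _ := by ring
    · have hold : ∀ g, Aff ι x0 g → Aff (ι ∘ₗ W.subtype) (x0 + ι y) g := by
        rintro g ⟨φ, c, h⟩
        refine ⟨φ.comp W.subtype, c + φ y, fun w => ?_⟩
        rw [hpt, h, map_add]
        simp [add_assoc]
      intro g hg
      rcases List.mem_cons.1 hg with rfl | hg
      · refine ⟨(ca + φa y) • φb.comp W.subtype, (ca + φa y) * (cb + φb y), fun w => ?_⟩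
        rw [bz_and, hpt, hφa, hφb, map_add, map_add]
        have h3 : φa (w : V) = 0 := w.2
        rw [h3]
        simp only [LinearMap.smul_apply, LinearMap.comp_apply, Submodule.subtype_apply,
          smul_eq_mul]
        ring
      · exact hold g (haff g (Lin.gate g hg))

end Pool.Agent.Helper45.AC
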