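import Pool.Agent.Helper72.AC.Circ

/-! Circuits with arbitrarily many XOR gates and few AND gates: statements. -/

set_option autoImplicit false

open Finset Module

namespace Pool.Agent.Helper45.AC

open Pool.Agent.Helper72.AC (rep num)

/-- from a digit to `ZMod 2` -/
def bz (b : Bool) : ZMod 2 := if b then 1 else 0

/-- from `ZMod 2` to a digit -/
def tb (a : ZMod 2) : Bool := decide (a = 1)

theorem tb_bz (b : Bool) : tb (bz b) = b := by
  revert b
  decide

theorem bz_tb (a : ZMod 2) : bz (tb a) = a := by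
  revert a
  decide

/-- the number with binary digits `x` -/
def numZ {n : ℕ} (x : Fin n → ZMod 2) : ℕ := num fun i => tb (x i)

/-- the choice of a representation is right at `N` -/
def Right (A : Set ℕ) (f : ℕ → ℕ) (N : ℕ) : Prop := f N ≤ N ∧ f N ∈ A ∧ N - f N ∈ A

/-- (ii) from a dense set on an affine subspace where the digits are affine to representations -/
def SpaceStmt : Prop := ∀ (n : ℕ) (A : Set ℕ) (f : ℕ → ℕ)
  (V : Submodule (ZMod 2) (Fin n → ZMod 2)) (x0 : Fin n → ZMod 2) (φ : Fin n → Dual (ZMod 2) V)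
  (c : Fin n → ZMod 2) (δ : ℝ),
  (∀ (v : V) (i : Fin n), bz ((f (numZ (x0 + (v : Fin n → ZMod 2)))).testBit i) = c i + φ i v) →
  (1 + δ) / 2 * 2 ^ finrank (ZMod 2) V ≤ (Set.ncard {v : V | Right A f (numZ (x0 + (v : Fin n → ZMod 2)))} : ℝ) →
  ∃ m < 2 ^ (n + 1), ∃ w : ℕ, 11 * finrank (ZMod 2) V ≤ 8 * w + 10 * n ∧
    δ * 2 ^ w ≤ (rep A m : ℝ) ^ 2

end Pool.Agent.Helper45.AC
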