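import Pool.Agent.Helper45.AC.Xor
import Pool.Agent.Helper1.BX.Space

/-! The lower bound for XOR circuits with few AND gates. -/

set_option autoImplicit false

namespace Pool.Agent.Helper45.AC

theorem xorMain : XorStmt := xorStmt Pool.Agent.Helper1.BX.spaceStmt

end Pool.Agent.Helper45.AC
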